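import Pool.Agent.Y120.G.Cnt

/-!
# Multiple polylogarithms at `1 / t` and logarithms of integers
-/

set_option autoImplicit false

open PowerSeries Pool.Agent.Y113

namespace Pool.Agent.Y120.GF

lemma TL_ne (g t : ℕ) (h : g + 1 < t) : Polynomial.aeval (1 / (t : ℝ)) (TL g) ≠ 0 := by
  have ht : (0 : ℝ) < t := by
    have : 0 < t := by omega
    exact_mod_cast this
  have h1 : ((g : ℝ) + 1) < t := by exact_mod_cast h
  rw [TL, lf, lf, lf, map_mul, map_mul]
  simp only [map_add, map_mul, Polynomial.aeval_C, Polynomial.aeval_X, map_neg, map_one, map_zero, map_natCast]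
  have e1 : (1 : ℝ) / t ≠ 0 := by positivity
  have e2 : (1 : ℝ) + -(g : ℝ) * (1 / t) ≠ 0 := by
    have : (g : ℝ) * (1 / t) < 1 := by
      rw [mul_one_div, div_lt_one ht]
      linarith
    linarith
  have e3 : (1 : ℝ) + -((g : ℝ) + 1) * (1 / t) ≠ 0 := by
    have : ((g : ℝ) + 1) * (1 / t) < 1 := by
      rw [mul_one_div, div_lt_one ht]
      linarith
    linarith
  have e0 : (0 : ℝ) + 1 * (1 / t) ≠ 0 := by simpa using e1
  simpa using mul_ne_zero (mul_ne_zero e0 e2) e3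

theorem fam_FF (n : ℕ) : ∃ E, Fam (FF n) TL 3 E (0, ⟨[], by simp [wt_nil]⟩) := by
  obtain ⟨E, hE⟩ := gsys_FF n
  refine ⟨E, ⟨fun g => ?_, hE, TL_ne, fun k g hg => li_FF hg n⟩⟩
  show yQ g ((0 : Fin (n + 1)) : ℕ) * yL g [] = 1
  rw [yL_nil, mul_one]
  exact yQ_nil g

/-- the numbers `(log t)^e Li_w(1/t)` -/
noncomputable def XX (n t : ℕ) (b : Ix n) : ℂ := (((Real.log t) ^ (b.1 : ℕ) * LiR b.2.1 (1 / t) : ℝ) : ℂ)

/-- from `t - g` to the shift `g` -/
theorem bad_shift {n : ℕ} {V : Submodule ℚ ℂ} {t g : ℕ} (h : g + 1 < t) (hb : Bad V (XX n (t - g))) :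
    Bad (Ext V fun i : Fin (n + 1) => (((Real.log t : ℝ) : ℂ)) ^ (i : ℕ)) fun b => ((ev t (FF n g b) : ℝ) : ℂ) := by
  classical
  obtain ⟨v, hvV, hv0, hv⟩ := hb
  have htR : ((g : ℝ) + 1) < t := by exact_mod_cast h
  have hg0 : (0 : ℝ) ≤ g := by positivity
  have ht0 : (0 : ℝ) < t := by linarith
  set ℓ : ℂ := ((Real.log t : ℝ) : ℂ) with hℓ
  set Q : ℂ := ((Real.log (1 - g / t) : ℝ) : ℂ) with hQ
  set L : W n → ℂ := fun w => ((LiR w.1 (1 / ((t : ℝ) - g)) : ℝ) : ℂ) with hL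
  have hcast : ((t - g : ℕ) : ℝ) = (t : ℝ) - g := by
    rw [Nat.cast_sub (by omega)]
  have hlog : Real.log ((t - g : ℕ) : ℝ) = Real.log t + Real.log (1 - g / t) := by
    rw [hcast, ← Real.log_mul ht0.ne']
    · congr 1
      field_simp
    · have : (g : ℝ) / t < 1 := by
        rw [div_lt_one ht0]
        linarith
      linarith
  have hX : ∀ (e : Fin (n + 1)) (w : W n), XX n (t - g) (e, w) = (ℓ + Q) ^ (e : ℕ) * L w := by
    intro e w
    rw [XX, hlog, hcast, hℓ, hQ, hL]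
    push_cast
    rfl
  have hF : ∀ (e : Fin (n + 1)) (w : W n), ((ev t (FF n g (e, w)) : ℝ) : ℂ) =
      1 / ((e : ℕ).factorial : ℂ) * Q ^ (e : ℕ) * L w := by
    intro e w
    have h1 : Cv (t : ℝ) (yQ g e) := by
      rw [yQ]
      exact (Cv.C _).mul ht0 ((lg_cv (by linarith)).pow ht0 _)
    rw [FF, Cv.ev_mul ht0 h1 (yL_cv htR _), ev_yL htR, ev_yQ (by linarith), hQ, hL]
    push_cast
    ring
  -- the polynomials
  let p : W n → Polynomial ℂ := fun w => ∑ e : Fin (n + 1), Polynomial.C (v (e, w)) * Polynomial.X ^ (e : ℕ)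
  have hpc : ∀ w (e : Fin (n + 1)), (p w).coeff (e : ℕ) = v (e, w) := by
    intro w e
    show (∑ e : Fin (n + 1), Polynomial.C (v (e, w)) * Polynomial.X ^ (e : ℕ)).coeff (e : ℕ) = v (e, w)
    rw [Polynomial.finsetSum_coeff, Finset.sum_eq_single e]
    · rw [Polynomial.coeff_C_mul, Polynomial.coeff_X_pow_self, mul_one]
    · intro e' _ hne
      rw [Polynomial.coeff_C_mul, Polynomial.coeff_X_pow, if_neg, mul_zero]
      intro h
      exact hne (Fin.ext h.symm)
    · intro h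
      exact absurd (Finset.mem_univ _) h
  have hpV : ∀ w m, (p w).coeff m ∈ V := by
    intro w m
    show (∑ e : Fin (n + 1), Polynomial.C (v (e, w)) * Polynomial.X ^ (e : ℕ)).coeff m ∈ V
    rw [Polynomial.finsetSum_coeff]
    refine Submodule.sum_mem _ fun e _ => ?_
    rw [Polynomial.coeff_C_mul, Polynomial.coeff_X_pow]
    split_ifs
    · rw [mul_one]
      exact hvV _
    · rw [mul_zero]
      exact Submodule.zero_mem _
  have hpd : ∀ w, (p w).natDegree ≤ n := by
    intro w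
    refine Polynomial.natDegree_sum_le_of_forall_le _ _ fun e _ => ?_
    exact (Polynomial.natDegree_C_mul_X_pow_le _ _).trans (Nat.lt_succ_iff.1 e.2)
  have hpe : ∀ w x, (p w).eval x = ∑ e : Fin (n + 1), v (e, w) * x ^ (e : ℕ) := by
    intro w x
    show (∑ e : Fin (n + 1), Polynomial.C (v (e, w)) * Polynomial.X ^ (e : ℕ)).eval x = _
    rw [Polynomial.eval_finsetSum]
    simp
  have htd : ∀ w, (Polynomial.taylor ℓ (p w)).natDegree ≤ n := by
    intro w
    rw [Polynomial.natDegree_taylor]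
    exact hpd w
  refine ⟨fun b => ((b.1 : ℕ).factorial : ℂ) * (Polynomial.taylor ℓ (p b.2)).coeff (b.1 : ℕ), ?_, ?_, ?_⟩
  · rintro ⟨e, w⟩
    simp only
    rw [Polynomial.taylor_coeff]
    have h1 : (Polynomial.hasseDeriv (e : ℕ) (p w)).natDegree < n + 1 :=
      lt_of_le_of_lt (Polynomial.natDegree_hasseDeriv_le _ _) (by have := hpd w; omega)
    rw [Polynomial.eval_eq_sum_range' h1, Finset.mul_sum, Finset.sum_range]
    have h2 : ∑ i : Fin (n + 1), ((e : ℕ).factorial : ℂ) *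
        ((Polynomial.hasseDeriv (e : ℕ) (p w)).coeff (i : ℕ) * ℓ ^ (i : ℕ)) =
        ∑ i : Fin (n + 1), (((e : ℕ).factorial * ((i : ℕ) + e).choose e : ℕ) • (p w).coeff ((i : ℕ) + e)) * ℓ ^ (i : ℕ) := by
      refine Finset.sum_congr rfl fun i _ => ?_
      rw [Polynomial.hasseDeriv_coeff, nsmul_eq_mul]
      push_cast
      ring
    rw [h2]
    exact mem_Ext V _ fun i => Submodule.smul_of_tower_mem _ _ (hpV _ _)
  · intro h0
    apply hv0
    have h1 : ∀ w, p w = 0 := by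
      intro w
      have h2 : Polynomial.taylor ℓ (p w) = 0 := by
        ext m
        rw [Polynomial.coeff_zero]
        rcases Nat.lt_or_ge m (n + 1) with hm | hm
        · have h3 := congrFun h0 (⟨m, hm⟩, w)
          simp only [Pi.zero_apply, mul_eq_zero] at h3
          exact h3.resolve_left (by exact_mod_cast Nat.factorial_ne_zero m)
        · exact Polynomial.coeff_eq_zero_of_natDegree_lt (lt_of_le_of_lt (htd w) hm)
      exact (Polynomial.taylor_eq_zero ℓ _).1 h2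
    funext ⟨e, w⟩
    rw [← hpc w e, h1 w]
    simp
  · rw [← hv, Fintype.sum_prod_type, Fintype.sum_prod_type, Finset.sum_comm, Finset.sum_comm (s := Finset.univ (α := Fin (n + 1)))]
    refine Finset.sum_congr rfl fun w _ => ?_
    have h1 : ∀ e : Fin (n + 1), ((e : ℕ).factorial : ℂ) * (Polynomial.taylor ℓ (p w)).coeff (e : ℕ) *
        ((ev t (FF n g (e, w)) : ℝ) : ℂ) = (Polynomial.taylor ℓ (p w)).coeff (e : ℕ) * Q ^ (e : ℕ) * L w := by
      intro e
      rw [hF]
      have : ((e : ℕ).factorial : ℂ) ≠ 0 := by exact_mod_cast Nat.factorial_ne_zero _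
      field_simp
    simp only [h1, hX]
    rw [← Finset.sum_mul]
    have h2 : ∑ i : Fin (n + 1), (Polynomial.taylor ℓ (p w)).coeff (i : ℕ) * Q ^ (i : ℕ) = (p w).eval (Q + ℓ) := by
      rw [← Polynomial.taylor_eval, Polynomial.eval_eq_sum_range' (Nat.lt_succ_of_le (htd w)), Finset.sum_range]
    rw [h2, hpe, Finset.sum_mul]
    refine Finset.sum_congr rfl fun e _ => ?_
    rw [add_comm Q ℓ]
    ring

/-- few bad integers -/
theorem one_XX (n : ℕ) : One (XX n) := by
  intro D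
  obtain ⟨E₀, hF⟩ := fam_FF n
  obtain ⟨E, hE⟩ := win hF ((n + 1) * D)
  set M := 2 * ((n + 1) * D) with hM
  refine ⟨1 / (2 * ((max E 1 : ℕ) : ℝ)), 8 + 4 * M, by positivity, by positivity, ?_⟩
  intro V _ hV x N hN S hS
  refine count_one (fun t => Bad V (XX n t)) M (max E 1) (le_max_right _ _) ?_ x N hN S hS
  intro H t hHt S' hS'
  have h1 : (H + 2) ^ E ≤ t := (Nat.pow_le_pow_right (by omega) (le_max_left _ _)).trans hHt
  have h2 : H + 2 ≤ t := (Nat.le_self_pow (by omega) _).trans hHt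
  refine hE H t h1 (Ext V fun i : Fin (n + 1) => (((Real.log t : ℝ) : ℂ)) ^ (i : ℕ))
    ((finrank_Ext V _).trans ?_) S' fun g hg => ?_
  · rw [Fintype.card_fin]
    exact Nat.mul_le_mul_left _ hV
  · obtain ⟨g1, g2, g3⟩ := hS' g hg
    exact ⟨g1, g2, bad_shift (by omega) g3⟩

end Pool.Agent.Y120.GF
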