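import Pool.Agent.Y120.G.Word
import Pool.Agent.Y113.G.Ev

/-!
# Values of the shifted words
-/

set_option autoImplicit false

open PowerSeries Pool.Agent.Y113

namespace Pool.Agent.Y120.GF

lemma cL_nonneg (s : List ℕ) (m : ℕ) : 0 ≤ cL s m := by
  induction s generalizing m with
  | nil =>
    rw [cL]
    split_ifs <;> norm_num
  | cons a s ih =>
    rw [cL]
    exact div_nonneg (Finset.sum_nonneg fun j _ => ih j) (by positivity)

lemma cL_le_one (s : List ℕ) (m : ℕ) : cL s m ≤ 1 := by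
  induction s generalizing m with
  | nil =>
    rw [cL]
    split_ifs <;> norm_num
  | cons a s ih =>
    rw [cL]
    rcases Nat.eq_zero_or_pos m with rfl | hm
    · simp
    · have hm1 : (1 : ℚ) ≤ m := by exact_mod_cast hm
      rw [div_le_one (by positivity)]
      calc ∑ j ∈ Finset.range m, cL s j ≤ ∑ j ∈ Finset.range m, (1 : ℚ) := Finset.sum_le_sum fun j _ => ih j
        _ = m := by simp
        _ ≤ (m : ℚ) ^ (a + 1) := le_self_pow₀ hm1 (by omega)

/-- the real value of a multiple polylogarithm -/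
noncomputable def LiR (s : List ℕ) (x : ℝ) : ℝ := ∑' m : ℕ, ((cL s m : ℚ) : ℝ) * x ^ m

section
variable {t : ℝ} {g : ℕ}

lemma sh_cv (ht : (g : ℝ) < t) : Cv t (sh g) := by
  have ht0 : 0 < t := lt_of_le_of_lt (by positivity) ht
  rcases Nat.eq_zero_or_pos g with rfl | hg
  · have h : sh 0 = ((Polynomial.X : Polynomial ℚ) : ℚ⟦X⟧) := by
      have := sh_eq 0
      simpa using this
    rw [h]
    exact Cv.coe _
  · have hg1 : (1 : ℝ) ≤ g := by exact_mod_cast hg
    refine Cv.of_bound (A := 1) (B := g) ht0 (by positivity) ht fun m => ?_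
    rw [sh, coeff_mk]
    split_ifs with h
    · simp
    · push_cast
      rw [abs_of_nonneg (by positivity), one_mul]
      exact pow_le_pow_right₀ hg1 (by omega)

lemma sh_nonneg (m : ℕ) : 0 ≤ coeff m (sh g) := by
  rw [sh, coeff_mk]
  split_ifs
  · exact le_rfl
  · positivity

lemma sh_pow_nonneg (d m : ℕ) : 0 ≤ coeff m (sh g ^ d) := by
  induction d generalizing m with
  | zero =>
    rw [pow_zero, coeff_one]
    split_ifs <;> norm_num
  | succ d ih =>
    rw [pow_succ, coeff_mul]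
    exact Finset.sum_nonneg fun p _ => mul_nonneg (ih _) (sh_nonneg _)

lemma ev_sh (ht : (g : ℝ) < t) : ev t (sh g) = 1 / (t - g) := by
  have ht0 : 0 < t := lt_of_le_of_lt (by positivity) ht
  have h1 := congrArg (ev t) (sh_eq g)
  have hP : (1 - (g : ℚ⟦X⟧) * X) = ((1 - Polynomial.C (g : ℚ) * Polynomial.X : Polynomial ℚ) : ℚ⟦X⟧) := by
    rw [Polynomial.coe_sub, Polynomial.coe_one, Polynomial.coe_mul, Polynomial.coe_C, Polynomial.coe_X]
    simp
  have hX : (X : ℚ⟦X⟧) = ((Polynomial.X : Polynomial ℚ) : ℚ⟦X⟧) := by simp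
  rw [Cv.ev_mul ht0 (by rw [hP]; exact Cv.coe _) (sh_cv ht), hP, ev_coe, hX, ev_coe] at h1
  simp at h1
  have h2 : t - g ≠ 0 := by linarith
  have h3 : t ≠ 0 := ht0.ne'
  field_simp at h1 ⊢
  linarith

/-- values of a substitution -/
theorem subst_val (ht : (g : ℝ) + 1 < t) {f : ℚ⟦X⟧} (hf : ∀ m, |((coeff m f : ℚ) : ℝ)| ≤ 1) :
    Cv t (f.subst (sh g)) ∧
    ev t (f.subst (sh g)) = ∑' m : ℕ, ((coeff m f : ℚ) : ℝ) * (1 / (t - g)) ^ m := by
  have hg0 : (0 : ℝ) ≤ g := by positivity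
  have ht0 : 0 < t := by linarith
  have htg : (g : ℝ) < t := by linarith
  set σ : ℝ := 1 / (t - g) with hσ
  have hσ0 : 0 < σ := by
    rw [hσ]
    have : 0 < t - g := by linarith
    positivity
  have hσ1 : σ < 1 := by
    rw [hσ, div_lt_one (by linarith)]
    linarith
  -- the double family
  obtain ⟨a, ha⟩ : ∃ a : ℕ → ℕ → ℝ, ∀ d m, a d m =
    ((coeff d f : ℚ) : ℝ) * (((coeff m (sh g ^ d) : ℚ) : ℝ) * (1 / t) ^ m) := ⟨_, fun _ _ => rfl⟩
  have hcv : ∀ d, Cv t (sh g ^ d) := fun d => (sh_cv htg).pow ht0 d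
  have hev : ∀ d, ∑' m, (((coeff m (sh g ^ d) : ℚ) : ℝ) * (1 / t) ^ m) = σ ^ d := by
    intro d
    have := (sh_cv htg).ev_pow ht0 d
    rw [ev_sh htg] at this
    exact this
  have hb0 : ∀ d m, 0 ≤ ((coeff m (sh g ^ d) : ℚ) : ℝ) * (1 / t) ^ m := by
    intro d m
    have : (0 : ℝ) ≤ ((coeff m (sh g ^ d) : ℚ) : ℝ) := by exact_mod_cast sh_pow_nonneg d m
    positivity
  have hsumn : Summable (fun p => ‖Function.uncurry a p‖) := by
    have h0 : 0 ≤ fun p : ℕ × ℕ => ‖Function.uncurry a p‖ := fun p => norm_nonneg _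
    rw [summable_prod_of_nonneg h0]
    have h1 : ∀ d m, ‖Function.uncurry a (d, m)‖ =
        |((coeff d f : ℚ) : ℝ)| * (((coeff m (sh g ^ d) : ℚ) : ℝ) * (1 / t) ^ m) := by
      intro d m
      rw [Function.uncurry_apply_pair, ha, norm_mul, Real.norm_eq_abs, Real.norm_of_nonneg (hb0 d m)]
    constructor
    · intro d
      simp only [h1]
      exact ((hcv d).summable ht0).mul_left _
    · simp only [h1, tsum_mul_left, hev]
      refine Summable.of_nonneg_of_le (fun d => by positivity) (fun d => ?_)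
        (summable_geometric_of_lt_one hσ0.le hσ1)
      calc |((coeff d f : ℚ) : ℝ)| * σ ^ d ≤ 1 * σ ^ d := mul_le_mul_of_nonneg_right (hf d) (by positivity)
        _ = σ ^ d := one_mul _
  have hsum : Summable (Function.uncurry a) := Summable.of_norm hsumn
  have hcomm := hsum.tsum_comm
  have hL : ∑' (d : ℕ) (m : ℕ), a d m = ∑' m : ℕ, ((coeff m f : ℚ) : ℝ) * σ ^ m := by
    refine tsum_congr fun d => ?_
    rw [tsum_congr (ha d), tsum_mul_left, hev]
  rw [← hL]
  have hX : X ∣ sh g := by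
    rw [X_dvd_iff, ← coeff_zero_eq_constantCoeff_apply, sh, coeff_mk]
    simp
  have hz : ∀ d m, m < d → coeff m (sh g ^ d) = 0 := by
    intro d m hmd
    have h1 : X ^ d ∣ sh g ^ d := pow_dvd_pow_of_dvd hX d
    exact X_pow_dvd_iff.1 h1 m hmd
  unfold ev
  have hR : ∀ m, ((coeff m (f.subst (sh g)) : ℚ) : ℝ) * (1 / t) ^ m = ∑' d, a d m := by
    intro m
    rw [coeff_subst' (sh_sub g), finsum_eq_sum_of_support_subset (s := Finset.range (m + 1))]
    · rw [tsum_eq_sum (s := Finset.range (m + 1))]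
      · rw [Rat.cast_sum, Finset.sum_mul]
        refine Finset.sum_congr rfl fun d _ => ?_
        rw [ha, smul_eq_mul]
        push_cast
        ring
      · intro d hd
        rw [ha, hz d m (by simpa using hd)]
        simp
    · intro d hd
      simp only [Function.mem_support, smul_eq_mul, ne_eq, mul_eq_zero, not_or] at hd
      simp only [Finset.coe_range, Set.mem_Iio]
      by_contra hlt
      exact hd.2 (hz d m (by omega))
  refine ⟨?_, by rw [tsum_congr hR]; exact hcomm⟩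
  have h1 := hsumn.prod_symm
  have h2 : Summable fun m => ∑' d, ‖a d m‖ := h1.prod
  unfold Cv
  refine Summable.of_nonneg_of_le (fun m => by positivity) (fun m => ?_) h2
  have h3 : |((coeff m (f.subst (sh g)) : ℚ) : ℝ)| * (1 / t) ^ m =
      ‖((coeff m (f.subst (sh g)) : ℚ) : ℝ) * (1 / t) ^ m‖ := by
    rw [norm_mul, Real.norm_eq_abs, Real.norm_of_nonneg (by positivity)]
  rw [h3, hR m]
  exact norm_tsum_le_tsum_norm (h1.prod_factor m)

theorem ev_subst (ht : (g : ℝ) + 1 < t) {f : ℚ⟦X⟧} (hf : ∀ m, |((coeff m f : ℚ) : ℝ)| ≤ 1) :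
    ev t (f.subst (sh g)) = ∑' m : ℕ, ((coeff m f : ℚ) : ℝ) * (1 / (t - g)) ^ m := (subst_val ht hf).2

lemma Lp_le (s : List ℕ) (m : ℕ) : |((coeff m (Lp s) : ℚ) : ℝ)| ≤ 1 := by
  rw [coeff_Lp]
  have h1 : (0 : ℝ) ≤ ((cL s m : ℚ) : ℝ) := by exact_mod_cast cL_nonneg s m
  rw [abs_of_nonneg h1]
  exact_mod_cast cL_le_one s m

lemma yL_cv (ht : (g : ℝ) + 1 < t) (s : List ℕ) : Cv t (yL g s) := (subst_val ht (Lp_le s)).1

/-- values of the words -/
theorem ev_yL (ht : (g : ℝ) + 1 < t) (s : List ℕ) : ev t (yL g s) = LiR s (1 / (t - g)) := by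
  rw [yL, ev_subst ht (Lp_le s)]
  unfold LiR
  simp only [coeff_Lp]

lemma lg_cv (ht : (g : ℝ) < t) : Cv t (lg g) := by
  have ht0 : 0 < t := lt_of_le_of_lt (by positivity) ht
  refine Cv.of_bound (A := 1) (B := g) ht0 (by positivity) ht fun m => ?_
  rw [lg, coeff_mk]
  push_cast
  rw [abs_neg, one_mul, abs_of_nonneg (by positivity)]
  rcases Nat.eq_zero_or_pos m with rfl | hm
  · simp
  · refine div_le_self (by positivity) ?_
    exact_mod_cast hm

lemma ev_lg (ht : (g : ℝ) < t) : ev t (lg g) = Real.log (1 - g / t) := by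
  have ht0 : 0 < t := lt_of_le_of_lt (by positivity) ht
  have h1 : |(g : ℝ) / t| < 1 := by
    rw [abs_of_nonneg (by positivity), div_lt_one ht0]
    exact ht
  have h2 := Real.hasSum_pow_div_log_of_abs_lt_one h1
  unfold ev
  have h3 : HasSum (fun m : ℕ => ((coeff m (lg g) : ℚ) : ℝ) * (1 / t) ^ m) (Real.log (1 - g / t)) := by
    rw [← hasSum_nat_add_iff' 1]
    rw [Finset.sum_range_one]
    have h4 : ((coeff 0 (lg g) : ℚ) : ℝ) * (1 / t) ^ 0 = 0 := by rw [lg_zero]; simp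
    rw [h4, sub_zero]
    have h5 := h2.neg
    rw [neg_neg] at h5
    have h6 : (fun m : ℕ => ((coeff (m + 1) (lg g) : ℚ) : ℝ) * (1 / t) ^ (m + 1)) =
        fun m : ℕ => -(((g : ℝ) / t) ^ (m + 1) / ((m : ℝ) + 1)) := by
      funext m
      rw [lg, coeff_mk]
      push_cast
      rw [div_pow, div_pow, one_pow]
      ring
    rw [h6]
    exact h5
  exact h3.tsum_eq

lemma ev_yQ (ht : (g : ℝ) < t) (e : ℕ) : ev t (yQ g e) = 1 / (e.factorial : ℝ) * Real.log (1 - g / t) ^ e := by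
  have ht0 : 0 < t := lt_of_le_of_lt (by positivity) ht
  rw [yQ, Cv.ev_mul ht0 (Cv.C _) ((lg_cv ht).pow ht0 e), ev_C, (lg_cv ht).ev_pow ht0, ev_lg ht]
  push_cast
  ring

end

end Pool.Agent.Y120.GF
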