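import Pool.Agent.Y120.G.Win

/-!
# Counting: from short windows to all tuples
-/

set_option autoImplicit false

open Pool.Agent.Y113

namespace Pool.Agent.Y120.GF

/-- counting with short windows, in an interval -/
theorem count_one (B : ℕ → Prop) (M E : ℕ) (hE : 1 ≤ E)
    (hB : ∀ H t : ℕ, (H + 2) ^ E ≤ t → ∀ S : Finset ℕ, (∀ g ∈ S, 1 ≤ g ∧ g ≤ H ∧ B (t - g)) → S.card ≤ M)
    (x N : ℕ) (hN : 1 ≤ N) (S : Finset ℕ) (hS : ∀ t ∈ S, x < t ∧ t ≤ x + N ∧ B t) :
    (S.card : ℝ) ≤ (8 + 4 * M) * (1 + N / ((x : ℝ) + N) ^ (1 / (2 * (E : ℝ)))) := by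
  classical
  set c : ℝ := 1 / (2 * (E : ℝ)) with hc
  have hE0 : (1 : ℝ) ≤ E := by exact_mod_cast hE
  have hc0 : 0 < c := by positivity
  have hc1 : c ≤ 1 / 2 := by
    rw [hc, div_le_div_iff₀ (by positivity) (by norm_num)]
    linarith
  have hx0 : (0 : ℝ) ≤ x := by positivity
  have hN1 : (1 : ℝ) ≤ N := by exact_mod_cast hN
  set T : ℝ := (x : ℝ) + N with hTd
  have hT1 : (1 : ℝ) ≤ T := by linarith
  have hT0 : (0 : ℝ) < T := by linarith
  have hPc : (1 : ℝ) ≤ T ^ c := Real.one_le_rpow hT1 hc0.le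
  have hPc0 : (0 : ℝ) < T ^ c := by linarith
  have hM0 : (0 : ℝ) ≤ M := by positivity
  set Y : ℝ := N / T ^ c with hY
  have hY0 : 0 ≤ Y := by positivity
  have hcard : S.card ≤ N := by
    have : S ⊆ Finset.Ioc x (x + N) := fun t ht => Finset.mem_Ioc.2 ⟨(hS t ht).1, (hS t ht).2.1⟩
    simpa using Finset.card_le_card this
  have hcardR : (S.card : ℝ) ≤ N := by exact_mod_cast hcard
  set h : ℕ := ⌊T ^ c⌋₊ with hh
  have hh1 : (h : ℝ) ≤ T ^ c := Nat.floor_le (by positivity)
  have hh2 : T ^ c < (h : ℝ) + 1 := Nat.lt_floor_add_one _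
  rcases Nat.lt_or_ge h 4 with hlt | hge
  · have h3 : (h : ℝ) ≤ 3 := by exact_mod_cast (by omega : h ≤ 3)
    have h4 : T ^ c ≤ 4 := by linarith
    have h5 : (N : ℝ) ≤ 4 * Y := by
      rw [hY, mul_div_assoc', le_div_iff₀ hPc0]
      nlinarith
    nlinarith [mul_nonneg hM0 hY0]
  · set H : ℕ := h - 2 with hH
    have hH2 : H + 2 = h := by omega
    have hHpos : 0 < H := by omega
    have hHposR : (0 : ℝ) < H := by exact_mod_cast hHpos
    have hHR : T ^ c / 4 ≤ (H : ℝ) := by
      have e1 : (H : ℝ) = (h : ℝ) - 2 := by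
        rw [← hH2]
        push_cast
        ring
      have e2 : (4 : ℝ) ≤ h := by exact_mod_cast hge
      rw [e1]
      linarith
    -- the exponent
    have hpow : ((H : ℝ) + 2) ^ E ≤ T ^ (1 / 2 : ℝ) := by
      have e1 : (H : ℝ) + 2 = h := by
        rw [← hH2]
        push_cast
        ring
      rw [e1]
      calc (h : ℝ) ^ E ≤ (T ^ c) ^ E := pow_le_pow_left₀ (by positivity) hh1 _
        _ = T ^ (1 / 2 : ℝ) := by
            rw [← Real.rpow_natCast, ← Real.rpow_mul hT0.le]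
            congr 1
            rw [hc]
            field_simp
    have hT4 : (4 : ℝ) ≤ T ^ (1 / 2 : ℝ) := by
      have e2 : (4 : ℝ) ≤ h := by exact_mod_cast hge
      have e3 : T ^ c ≤ T ^ (1 / 2 : ℝ) := Real.rpow_le_rpow_of_exponent_le hT1 hc1
      linarith
    have hTT : T = T ^ (1 / 2 : ℝ) * T ^ (1 / 2 : ℝ) := by
      rw [← Real.rpow_add hT0]
      norm_num
    -- small elements
    set S₁ := S.filter fun t : ℕ => (t : ℝ) ≤ T ^ (1 / 2 : ℝ) with hS₁
    set S₂ := S.filter fun t : ℕ => ¬ (t : ℝ) ≤ T ^ (1 / 2 : ℝ) with hS₂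
    have hsum : S₁.card + S₂.card = S.card :=
      Finset.card_filter_add_card_filter_not (s := S) (fun t : ℕ => (t : ℝ) ≤ T ^ (1 / 2 : ℝ))
    have h1 : (S₁.card : ℝ) ≤ 8 * Y := by
      rcases Finset.eq_empty_or_nonempty S₁ with h0 | ⟨t₀, ht₀⟩
      · rw [h0]
        simpa using hY0
      · have f1 := (Finset.mem_filter.1 ht₀).2
        have f2 := (hS t₀ (Finset.mem_filter.1 ht₀).1).1
        have f3 : (x : ℝ) < t₀ := by exact_mod_cast f2
        have e1 : S₁ ⊆ Finset.range (⌊T ^ (1 / 2 : ℝ)⌋₊ + 1) := by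
          intro t ht
          rw [Finset.mem_range, Nat.lt_succ_iff]
          exact Nat.le_floor (Finset.mem_filter.1 ht).2
        have e2 := Finset.card_le_card e1
        rw [Finset.card_range] at e2
        have e3 : ((⌊T ^ (1 / 2 : ℝ)⌋₊ : ℕ) : ℝ) ≤ T ^ (1 / 2 : ℝ) := Nat.floor_le (by positivity)
        have e4 : (S₁.card : ℝ) ≤ (⌊T ^ (1 / 2 : ℝ)⌋₊ : ℕ) + 1 := by exact_mod_cast e2
        have e5 : (S₁.card : ℝ) ≤ 2 * T ^ (1 / 2 : ℝ) := by linarith
        -- N is large
        have e6 : T / 2 ≤ N := by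
          have : T = x + N := hTd
          nlinarith
        have e7 : T ^ (1 / 2 : ℝ) * T ^ c ≤ T := by
          have : T ^ c ≤ T ^ (1 / 2 : ℝ) := Real.rpow_le_rpow_of_exponent_le hT1 hc1
          calc T ^ (1 / 2 : ℝ) * T ^ c ≤ T ^ (1 / 2 : ℝ) * T ^ (1 / 2 : ℝ) :=
                mul_le_mul_of_nonneg_left this (by positivity)
            _ = T := hTT.symm
        have e8 : T ^ (1 / 2 : ℝ) ≤ 2 * Y := by
          rw [hY, mul_div_assoc', le_div_iff₀ hPc0]
          linarith
        linarith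
    have h2 : S₂.card ≤ M * (S₂.image fun t => t / H).card := by
      refine Finset.card_le_mul_card_image S₂ M fun i hi => ?_
      set Si := S₂.filter fun t => t / H = i with hSi
      have e1 : (Si.image fun t => i * H + H - t).card = Si.card := by
        refine Finset.card_image_of_injOn ?_
        intro t ht t' ht' heq
        have f1 := (Finset.mem_filter.1 ht).2
        have f2 := (Finset.mem_filter.1 ht').2
        have g1 := Nat.div_add_mod t H
        have g2 := Nat.div_add_mod t' H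
        have g3 := Nat.mod_lt t hHpos
        have g4 := Nat.mod_lt t' hHpos
        rw [f1] at g1
        rw [f2] at g2
        simp only at heq
        have g5 : H * i = i * H := mul_comm _ _
        omega
      rw [← e1]
      rcases Finset.eq_empty_or_nonempty Si with h0 | ⟨t₀, ht₀⟩
      · rw [h0]
        simp
      refine hB H (i * H + H) ?_ _ ?_
      · have f1 := (Finset.mem_filter.1 ht₀).2
        have f2 := (Finset.mem_filter.1 (Finset.mem_filter.1 ht₀).1).2
        have g1 := Nat.div_add_mod t₀ H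
        have g3 := Nat.mod_lt t₀ hHpos
        rw [f1] at g1
        have g5 : H * i = i * H := mul_comm _ _
        have g6 : t₀ ≤ i * H + H := by omega
        have g7 : (t₀ : ℝ) ≤ ((i * H + H : ℕ) : ℝ) := by exact_mod_cast g6
        push Not at f2
        have g8 : (((H + 2) ^ E : ℕ) : ℝ) ≤ ((i * H + H : ℕ) : ℝ) := by
          push_cast at g7 ⊢
          linarith
        exact_mod_cast g8
      · intro g hg
        obtain ⟨t, ht, rfl⟩ := Finset.mem_image.1 hg
        have f1 := (Finset.mem_filter.1 ht).2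
        have f2 := (Finset.mem_filter.1 ht).1
        have f3 := (Finset.mem_filter.1 f2).1
        have g1 := Nat.div_add_mod t H
        have g3 := Nat.mod_lt t hHpos
        rw [f1] at g1
        have g5 : H * i = i * H := mul_comm _ _
        refine ⟨by omega, by omega, ?_⟩
        have g6 : i * H + H - (i * H + H - t) = t := by omega
        rw [g6]
        exact (hS t f3).2.2
    have h3 : ((S₂.image fun t => t / H).card : ℝ) ≤ 4 * (1 + Y) := by
      have e1 : (S₂.image fun t => t / H) ⊆ Finset.Icc (x / H) ((x + N) / H) := by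
        intro i hi
        obtain ⟨t, ht, rfl⟩ := Finset.mem_image.1 hi
        have f := hS t (Finset.mem_filter.1 ht).1
        exact Finset.mem_Icc.2 ⟨Nat.div_le_div_right f.1.le, Nat.div_le_div_right f.2.1⟩
      have e2 := Finset.card_le_card e1
      rw [Nat.card_Icc] at e2
      have e3 : (x + N) / H + 1 - x / H ≤ N / H + 2 := by
        have h6 : (x + N) / H ≤ x / H + N / H + 1 := by
          rw [Nat.add_div hHpos]
          split_ifs
          · exact le_rfl
          · exact Nat.le_succ _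
        have key : ∀ a b c : ℕ, c ≤ a + b + 1 → c + 1 - a ≤ b + 2 := by
          intro a b c h
          omega
        exact key _ _ _ h6
      have e4 : (((N / H : ℕ)) : ℝ) ≤ (N : ℝ) / H := Nat.cast_div_le
      have e5 : (N : ℝ) / H ≤ 4 * Y := by
        rw [div_le_iff₀ hHposR, hY]
        have e7 : (N : ℝ) = 4 * (N / T ^ c) * (T ^ c / 4) := by field_simp
        calc (N : ℝ) = 4 * (N / T ^ c) * (T ^ c / 4) := e7
          _ ≤ 4 * (N / T ^ c) * H := mul_le_mul_of_nonneg_left hHR (by positivity)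
      have e6 : ((S₂.image fun t => t / H).card : ℝ) ≤ (N / H : ℕ) + 2 := by exact_mod_cast e2.trans e3
      linarith
    have h4 : (S₂.card : ℝ) ≤ M * (4 * (1 + Y)) := by
      have e1 : (S₂.card : ℝ) ≤ M * ((S₂.image fun t => t / H).card : ℝ) := by exact_mod_cast h2
      exact e1.trans (mul_le_mul_of_nonneg_left h3 hM0)
    have h5 : (S.card : ℝ) = S₁.card + S₂.card := by exact_mod_cast hsum.symm
    rw [h5]
    nlinarith

/-- few bad integers in every interval -/
def One {σ : Type} [Fintype σ] (X : ℕ → σ → ℂ) : Prop := ∀ D : ℕ, ∃ c C : ℝ, 0 < c ∧ 0 ≤ C ∧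
  ∀ (V : Submodule ℚ ℂ) [Module.Finite ℚ V], Module.finrank ℚ V ≤ D → ∀ x N : ℕ, 1 ≤ N → ∀ S : Finset ℕ,
    (∀ t ∈ S, x < t ∧ t ≤ x + N ∧ Bad V (X t)) → (S.card : ℝ) ≤ C * (1 + N / ((x : ℝ) + N) ^ c)

/-- few bad tuples in every box -/
theorem count_k {σ : Type} [Fintype σ] (X : ℕ → σ → ℂ) (h1 : One X) (D k : ℕ) : ∃ c C : ℝ, 0 < c ∧ 0 ≤ C ∧
    ∀ (V : Submodule ℚ ℂ) [Module.Finite ℚ V], Module.finrank ℚ V ≤ D → ∀ (x : Fin k → ℕ) (N : ℕ), 1 ≤ N →
      ∀ S : Finset (Fin k → ℕ),
      (∀ t ∈ S, (∀ i, x i < t i ∧ t i ≤ x i + N) ∧ Bad V fun b : Fin k → σ => ∏ i, X (t i) (b i)) →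
      (S.card : ℝ) ≤ C * (N : ℝ) ^ (k - 1) * ∑ i, (1 + N / ((x i : ℝ) + N) ^ c) := by
  classical
  induction k with
  | zero =>
    refine ⟨1, 0, one_pos, le_rfl, ?_⟩
    intro V _ hV x N hN S hS
    have : S = ∅ := by
      rw [Finset.eq_empty_iff_forall_notMem]
      intro t ht
      obtain ⟨-, v, -, hv0, hv⟩ := hS t ht
      apply hv0
      funext b
      simp only [Finset.univ_eq_empty, Finset.prod_empty, mul_one, Finset.univ_unique, Finset.sum_singleton] at hv
      rw [Subsingleton.elim b default]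
      exact hv
    rw [this]
    simp
  | succ k ih =>
    obtain ⟨c₁, C₁, hc₁, hC₁, h₁⟩ := ih
    obtain ⟨c₂, C₂, hc₂, hC₂, h₂⟩ := h1 (Fintype.card (Fin k → σ) * D)
    set c := min c₁ c₂ with hc
    have hc0 : 0 < c := lt_min hc₁ hc₂
    refine ⟨c, C₁ + C₂, hc0, by positivity, ?_⟩
    intro V _ hV x N hN S hS
    have hN1 : (1 : ℝ) ≤ N := by exact_mod_cast hN
    have hN0 : (0 : ℝ) < N := by linarith
    have hcmp : ∀ (y : ℕ) (c' : ℝ), c ≤ c' → 1 + (N : ℝ) / ((y : ℝ) + N) ^ c' ≤ 1 + (N : ℝ) / ((y : ℝ) + N) ^ c := by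
      intro y c' hcc
      have hy : (0 : ℝ) ≤ y := by positivity
      have e1 : (1 : ℝ) ≤ (y : ℝ) + N := by linarith
      have e2 : ((y : ℝ) + N) ^ c ≤ ((y : ℝ) + N) ^ c' := Real.rpow_le_rpow_of_exponent_le e1 hcc
      have e3 : (0 : ℝ) < ((y : ℝ) + N) ^ c := by positivity
      have e4 : (N : ℝ) / ((y : ℝ) + N) ^ c' ≤ N / ((y : ℝ) + N) ^ c := div_le_div_of_nonneg_left hN0.le e3 e2
      linarith
    -- the tails
    let Pt : (Fin k → ℕ) → (Fin k → σ) → ℂ := fun τ b => ∏ i, X (τ i) (b i)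
    set Sa := S.filter fun t => Bad V (Pt (Fin.tail t)) with hSa
    set Sb := S.filter fun t => ¬ Bad V (Pt (Fin.tail t)) with hSb
    have hsum : Sa.card + Sb.card = S.card :=
      Finset.card_filter_add_card_filter_not (s := S) (fun t => Bad V (Pt (Fin.tail t)))
    -- the alternative
    have halt : ∀ t ∈ Sb, Bad (Ext V (Pt (Fin.tail t))) (X (t 0)) := by
      intro t ht
      obtain ⟨htS, hnb⟩ := Finset.mem_filter.1 ht
      obtain ⟨-, v, hvV, hv0, hv⟩ := hS t htS
      set cf : σ → ℂ := fun β => ∑ b' : Fin k → σ, v (Fin.cons β b') * Pt (Fin.tail t) b' with hcf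
      refine ⟨cf, fun β => mem_Ext V _ fun b' => hvV _, ?_, ?_⟩
      · intro h0
        apply hnb
        obtain ⟨b, hb⟩ : ∃ b, v b ≠ 0 := by
          by_contra hno
          push Not at hno
          exact hv0 (funext hno)
        refine ⟨fun b' => v (Fin.cons (b 0) b'), fun b' => hvV _, ?_, congrFun h0 (b 0)⟩
        intro h2
        apply hb
        have h3 := congrFun h2 (Fin.tail b)
        simp only [Fin.cons_self_tail, Pi.zero_apply] at h3
        exact h3
      · rw [← hv, ← Equiv.sum_comp (Fin.consEquiv fun _ => σ), Fintype.sum_prod_type]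
        refine Finset.sum_congr rfl fun β _ => ?_
        rw [hcf]
        simp only
        rw [Finset.sum_mul]
        refine Finset.sum_congr rfl fun b' _ => ?_
        have e0 : (Fin.consEquiv fun _ => σ) (β, b') = Fin.cons β b' := rfl
        rw [e0, Fin.prod_univ_succ]
        simp only [Fin.cons_zero, Fin.cons_succ]
        have : Pt (Fin.tail t) b' = ∏ i : Fin k, X (t i.succ) (b' i) := rfl
        rw [this]
        ring
    -- bad tails
    have hA : (Sa.card : ℝ) ≤ C₁ * (N : ℝ) ^ k * ∑ i : Fin k, (1 + N / ((x i.succ : ℝ) + N) ^ c) := by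
      have e1 : Sa.card ≤ N * (Sa.image Fin.tail).card := by
        refine Finset.card_le_mul_card_image Sa N fun τ _ => ?_
        have e2 : ((Sa.filter fun t => Fin.tail t = τ).image fun t => t 0).card =
            (Sa.filter fun t => Fin.tail t = τ).card := by
          refine Finset.card_image_of_injOn ?_
          intro t ht t' ht' heq
          have f1 := (Finset.mem_filter.1 ht).2
          have f2 := (Finset.mem_filter.1 ht').2
          rw [← Fin.cons_self_tail t, ← Fin.cons_self_tail t', f1, f2]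
          simp only at heq
          rw [heq]
        rw [← e2]
        have e3 : ((Sa.filter fun t => Fin.tail t = τ).image fun t => t 0) ⊆ Finset.Ioc (x 0) (x 0 + N) := by
          intro y hy
          obtain ⟨t, ht, rfl⟩ := Finset.mem_image.1 hy
          exact Finset.mem_Ioc.2 ((hS t (Finset.mem_filter.1 (Finset.mem_filter.1 ht).1).1).1 0)
        simpa using Finset.card_le_card e3
      have e4 : ((Sa.image Fin.tail).card : ℝ) ≤ C₁ * (N : ℝ) ^ (k - 1) * ∑ i : Fin k, (1 + N / ((x i.succ : ℝ) + N) ^ c₁) := by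
        refine h₁ V hV (fun i => x i.succ) N hN _ fun τ hτ => ?_
        obtain ⟨t, ht, rfl⟩ := Finset.mem_image.1 hτ
        obtain ⟨htS, hb⟩ := Finset.mem_filter.1 ht
        exact ⟨fun i => (hS t htS).1 i.succ, hb⟩
      have e5 : (Sa.card : ℝ) ≤ (N : ℝ) * ((Sa.image Fin.tail).card : ℝ) := by exact_mod_cast e1
      rcases Nat.eq_zero_or_pos k with rfl | hk
      · simp only [Finset.univ_eq_empty, Finset.sum_empty, mul_zero] at e4 ⊢
        nlinarith
      · have e6 : (N : ℝ) ^ k = N * (N : ℝ) ^ (k - 1) := by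
          rw [← pow_succ']
          congr 1
          omega
        calc (Sa.card : ℝ) ≤ (N : ℝ) * (C₁ * (N : ℝ) ^ (k - 1) * ∑ i : Fin k, (1 + N / ((x i.succ : ℝ) + N) ^ c₁)) :=
              e5.trans (mul_le_mul_of_nonneg_left e4 hN0.le)
          _ = C₁ * (N : ℝ) ^ k * ∑ i : Fin k, (1 + N / ((x i.succ : ℝ) + N) ^ c₁) := by
              rw [e6]
              ring
          _ ≤ C₁ * (N : ℝ) ^ k * ∑ i : Fin k, (1 + N / ((x i.succ : ℝ) + N) ^ c) := by
              refine mul_le_mul_of_nonneg_left ?_ (by positivity)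
              exact Finset.sum_le_sum fun i _ => hcmp _ _ (min_le_left _ _)
    -- good tails
    have hB : (Sb.card : ℝ) ≤ C₂ * (N : ℝ) ^ k * (1 + N / ((x 0 : ℝ) + N) ^ c) := by
      set N' : ℕ := ⌊C₂ * (1 + N / ((x 0 : ℝ) + N) ^ c₂)⌋₊ with hN'
      have hN1' : (N' : ℝ) ≤ C₂ * (1 + N / ((x 0 : ℝ) + N) ^ c₂) := Nat.floor_le (by positivity)
      have e1 : Sb.card ≤ N' * (Sb.image Fin.tail).card := by
        refine Finset.card_le_mul_card_image Sb N' fun τ _ => ?_
        have e2 : ((Sb.filter fun t => Fin.tail t = τ).image fun t => t 0).card =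
            (Sb.filter fun t => Fin.tail t = τ).card := by
          refine Finset.card_image_of_injOn ?_
          intro t ht t' ht' heq
          have f1 := (Finset.mem_filter.1 ht).2
          have f2 := (Finset.mem_filter.1 ht').2
          rw [← Fin.cons_self_tail t, ← Fin.cons_self_tail t', f1, f2]
          simp only at heq
          rw [heq]
        rw [← e2, hN']
        refine Nat.le_floor ?_
        refine h₂ (Ext V (Pt τ)) ((finrank_Ext V _).trans (Nat.mul_le_mul_left _ hV)) (x 0) N hN _ fun y hy => ?_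
        obtain ⟨t, ht, rfl⟩ := Finset.mem_image.1 hy
        obtain ⟨htb, htail⟩ := Finset.mem_filter.1 ht
        have h6 := (hS t (Finset.mem_filter.1 htb).1).1 0
        refine ⟨h6.1, h6.2, ?_⟩
        have := halt t htb
        rw [htail] at this
        exact this
      have e4 : ((Sb.image Fin.tail).card : ℝ) ≤ (N : ℝ) ^ k := by
        have f1 : (Sb.image Fin.tail) ⊆ Fintype.piFinset fun i : Fin k => Finset.Ioc (x i.succ) (x i.succ + N) := by
          intro τ hτ
          obtain ⟨t, ht, rfl⟩ := Finset.mem_image.1 hτ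
          rw [Fintype.mem_piFinset]
          intro i
          exact Finset.mem_Ioc.2 ((hS t (Finset.mem_filter.1 ht).1).1 i.succ)
        have f2 := Finset.card_le_card f1
        rw [Fintype.card_piFinset] at f2
        simp only [Nat.card_Ioc, Nat.add_sub_cancel_left, Finset.prod_const, Finset.card_univ, Fintype.card_fin] at f2
        exact_mod_cast f2
      have e5 : (Sb.card : ℝ) ≤ (N' : ℝ) * ((Sb.image Fin.tail).card : ℝ) := by exact_mod_cast e1
      calc (Sb.card : ℝ) ≤ (C₂ * (1 + N / ((x 0 : ℝ) + N) ^ c₂)) * (N : ℝ) ^ k :=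
            e5.trans (mul_le_mul hN1' e4 (by positivity) (by positivity))
        _ ≤ (C₂ * (1 + N / ((x 0 : ℝ) + N) ^ c)) * (N : ℝ) ^ k := by
            refine mul_le_mul_of_nonneg_right ?_ (by positivity)
            exact mul_le_mul_of_nonneg_left (hcmp _ _ (min_le_right _ _)) hC₂
        _ = C₂ * (N : ℝ) ^ k * (1 + N / ((x 0 : ℝ) + N) ^ c) := by ring
    have h5 : (S.card : ℝ) = Sa.card + Sb.card := by exact_mod_cast hsum.symm
    have h6 : 0 ≤ ∑ i : Fin k, (1 + (N : ℝ) / ((x i.succ : ℝ) + N) ^ c) := Finset.sum_nonneg fun i _ => by positivity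
    have h7 : 0 ≤ 1 + (N : ℝ) / ((x 0 : ℝ) + N) ^ c := by positivity
    have h8 : 0 ≤ (N : ℝ) ^ k := by positivity
    rw [h5, Nat.add_sub_cancel, Fin.sum_univ_succ]
    calc (Sa.card : ℝ) + Sb.card ≤ C₁ * (N : ℝ) ^ k * ∑ i : Fin k, (1 + N / ((x i.succ : ℝ) + N) ^ c) +
          C₂ * (N : ℝ) ^ k * (1 + N / ((x 0 : ℝ) + N) ^ c) := add_le_add hA hB
      _ ≤ (C₁ + C₂) * (N : ℝ) ^ k * ((1 + N / ((x 0 : ℝ) + N) ^ c) + ∑ i : Fin k, (1 + N / ((x i.succ : ℝ) + N) ^ c)) := by
          have g1 : 0 ≤ C₁ * (N : ℝ) ^ k * (1 + N / ((x 0 : ℝ) + N) ^ c) := by positivity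
          have g2 : 0 ≤ C₂ * (N : ℝ) ^ k * ∑ i : Fin k, (1 + (N : ℝ) / ((x i.succ : ℝ) + N) ^ c) := by positivity
          linarith

/-- few bad tuples in the cube `[1, T]^k` -/
theorem count_cube {σ : Type} [Fintype σ] (X : ℕ → σ → ℂ) (h1 : One X) (D k : ℕ) : ∃ c C : ℝ, 0 < c ∧ 0 ≤ C ∧
    ∀ (V : Submodule ℚ ℂ) [Module.Finite ℚ V], Module.finrank ℚ V ≤ D → ∀ T : ℕ, 1 ≤ T → ∀ S : Finset (Fin k → ℕ),
      (∀ t ∈ S, (∀ i, 1 ≤ t i ∧ t i ≤ T) ∧ Bad V fun b : Fin k → σ => ∏ i, X (t i) (b i)) →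
      (S.card : ℝ) ≤ C * (T : ℝ) ^ ((k : ℝ) - c) := by
  obtain ⟨c, C, hc, hC, h⟩ := count_k X h1 D k
  refine ⟨min c 1, 2 * C * k, lt_min hc one_pos, by positivity, ?_⟩
  intro V _ hV T hT S hS
  have hT1 : (1 : ℝ) ≤ T := by exact_mod_cast hT
  have hT0 : (0 : ℝ) < T := by linarith
  have h2 := h V hV (fun _ => 0) T hT S fun t ht => ⟨fun i => by
    have := (hS t ht).1 i
    omega, (hS t ht).2⟩
  rcases Nat.eq_zero_or_pos k with rfl | hk
  · simpa using h2
  simp only [Nat.cast_zero, zero_add, Finset.sum_const, Finset.card_univ, Fintype.card_fin, nsmul_eq_mul] at h2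
  refine h2.trans ?_
  have e1 : (T : ℝ) / (T : ℝ) ^ c ≤ (T : ℝ) ^ (1 - min c 1) := by
    rw [div_eq_mul_inv, ← Real.rpow_neg hT0.le]
    calc (T : ℝ) * (T : ℝ) ^ (-c) = (T : ℝ) ^ (1 - c) := by
          rw [sub_eq_add_neg, Real.rpow_add hT0, Real.rpow_one]
      _ ≤ (T : ℝ) ^ (1 - min c 1) := by
          refine Real.rpow_le_rpow_of_exponent_le hT1 ?_
          have := min_le_left c 1
          linarith
  have e2 : (1 : ℝ) ≤ (T : ℝ) ^ (1 - min c 1) := Real.one_le_rpow hT1 (by have := min_le_right c 1; linarith)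
  have e3 : (T : ℝ) ^ ((k : ℝ) - min c 1) = (T : ℝ) ^ (k - 1) * (T : ℝ) ^ (1 - min c 1) := by
    rw [← Real.rpow_natCast, ← Real.rpow_add hT0]
    congr 1
    rw [Nat.cast_sub hk]
    push_cast
    ring
  rw [e3]
  calc C * (T : ℝ) ^ (k - 1) * (k * (1 + T / (T : ℝ) ^ c)) ≤ C * (T : ℝ) ^ (k - 1) * (k * (2 * (T : ℝ) ^ (1 - min c 1))) := by
        refine mul_le_mul_of_nonneg_left ?_ (by positivity)
        exact mul_le_mul_of_nonneg_left (by linarith) (by positivity)
    _ = 2 * C * k * ((T : ℝ) ^ (k - 1) * (T : ℝ) ^ (1 - min c 1)) := by ring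

end Pool.Agent.Y120.GF
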