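import Pool.Agent.Y120.G.Int

/-!
# Multiple polylogarithms at `1 / (t - g)` as power series in `1 / t`; they form a G-system
-/

set_option autoImplicit false

open PowerSeries Finset.HasAntidiagonal Pool.Agent.Y113

namespace Pool.Agent.Y120.GF

/-- coefficients of the multiple polylogarithm `Li_{s_1+1, ..., s_r+1}` -/
noncomputable def cL : List ℕ → ℕ → ℚ
  | [], m => if m = 0 then 1 else 0
  | (a :: s), m => (∑ j ∈ Finset.range m, cL s j) / (m : ℚ) ^ (a + 1)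

/-- the multiple polylogarithm `Li_{s_1+1, ..., s_r+1}` -/
noncomputable def Lp (s : List ℕ) : ℚ⟦X⟧ := PowerSeries.mk (cL s)

lemma coeff_Lp (s : List ℕ) (m : ℕ) : coeff m (Lp s) = cL s m := coeff_mk _ _

lemma Lp_nil : Lp [] = 1 := by
  ext m
  rw [coeff_Lp, coeff_one, cL]

lemma cL_zero (a : ℕ) (s : List ℕ) : cL (a :: s) 0 = 0 := by simp [cL]

lemma Lp_zero (a : ℕ) (s : List ℕ) : coeff 0 (Lp (a :: s)) = 0 := by rw [coeff_Lp, cL_zero]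

lemma Lp_succ (a : ℕ) (s : List ℕ) : X * d⁄dX ℚ (Lp ((a + 1) :: s)) = Lp (a :: s) := by
  ext m
  rcases m with _ | m
  · rw [coeff_zero_X_mul, Lp_zero]
  · rw [coeff_succ_X_mul, coeff_derivative, coeff_Lp, coeff_Lp, cL, cL]
    have h : ((m : ℚ) + 1) ≠ 0 := by positivity
    push_cast
    field_simp
    ring

lemma Lp_one (s : List ℕ) : (1 - X) * d⁄dX ℚ (Lp (0 :: s)) = Lp s := by
  have h : ∀ m : ℕ, coeff m (d⁄dX ℚ (Lp (0 :: s))) = ∑ j ∈ Finset.range (m + 1), cL s j := by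
    intro m
    rw [coeff_derivative, coeff_Lp, cL]
    have h : ((m : ℚ) + 1) ≠ 0 := by positivity
    push_cast
    field_simp
  ext m
  rw [sub_mul, one_mul, map_sub, coeff_Lp]
  rcases m with _ | m
  · rw [coeff_zero_X_mul, h]
    simp
  · rw [coeff_succ_X_mul, h, h, Finset.sum_range_succ _ (m + 1)]
    ring

/-! ## the shift -/

lemma sh_sub (g : ℕ) : HasSubst (sh g) := by
  refine HasSubst.of_constantCoeff_zero' ?_
  rw [← coeff_zero_eq_constantCoeff_apply, sh, coeff_mk]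
  simp

lemma sh_eq (g : ℕ) : (1 - (g : ℚ⟦X⟧) * X) * sh g = X := by
  have hg : (g : ℚ⟦X⟧) = PowerSeries.C (g : ℚ) := by simp
  ext m
  rw [sub_mul, one_mul, map_sub, hg, mul_assoc, coeff_C_mul, coeff_X, sh]
  rcases m with _ | _ | m
  · simp
  · rw [coeff_succ_X_mul, coeff_mk, coeff_mk]
    simp
  · rw [coeff_succ_X_mul, coeff_mk, coeff_mk]
    simp
    ring

lemma sh_der (g : ℕ) : (1 - (g : ℚ⟦X⟧) * X) ^ 2 * d⁄dX ℚ (sh g) = 1 := by
  have h1 := congrArg (fun f => d⁄dX ℚ f) (sh_eq g)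
  simp only [Derivation.leibniz, map_sub, Derivation.map_one_eq_zero, Derivation.map_natCast, derivative_X,
    smul_eq_mul, mul_zero, zero_sub, mul_one, add_zero] at h1
  have h2 := sh_eq g
  have h3 : (1 - (g : ℚ⟦X⟧) * X) ^ 2 * d⁄dX ℚ (sh g) = (1 - (g : ℚ⟦X⟧) * X) *
      ((1 - (g : ℚ⟦X⟧) * X) * d⁄dX ℚ (sh g) + sh g * -((g : ℚ⟦X⟧))) + (g : ℚ⟦X⟧) * ((1 - (g : ℚ⟦X⟧) * X) * sh g) := by
    ring
  rw [h3, h2, h1]
  ring

/-- the multiple polylogarithm at `1 / (t - g)` -/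
noncomputable def yL (g : ℕ) (s : List ℕ) : ℚ⟦X⟧ := (Lp s).subst (sh g)

lemma yL_nil (g : ℕ) : yL g [] = 1 := by
  rw [yL, Lp_nil, ← coe_substAlgHom (sh_sub g), map_one]

lemma yL_zero (g a : ℕ) (s : List ℕ) : coeff 0 (yL g (a :: s)) = 0 := by
  rw [yL, coeff_zero_eq_constantCoeff_apply]
  refine constantCoeff_subst_eq_zero ?_ _ ?_
  · have h : coeff 0 (sh g) = 0 := by
      rw [sh, coeff_mk]
      simp
    rw [coeff_zero_eq_constantCoeff_apply] at h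
    exact h
  · rw [← coeff_zero_eq_constantCoeff_apply, Lp_zero]

lemma yL_succ (g a : ℕ) (s : List ℕ) :
    X * (1 - (g : ℚ⟦X⟧) * X) * d⁄dX ℚ (yL g ((a + 1) :: s)) = yL g (a :: s) := by
  have h1 := congrArg (fun f => f.subst (sh g)) (Lp_succ a s)
  simp only [subst_mul (sh_sub g), subst_X (sh_sub g)] at h1
  rw [yL, yL, derivative_subst (sh_sub g), ← h1]
  have h2 := sh_eq g
  have h3 := sh_der g
  calc X * (1 - (g : ℚ⟦X⟧) * X) * ((d⁄dX ℚ (Lp ((a + 1) :: s))).subst (sh g) * d⁄dX ℚ (sh g)) =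
      ((1 - (g : ℚ⟦X⟧) * X) * sh g) * (1 - (g : ℚ⟦X⟧) * X) *
        ((d⁄dX ℚ (Lp ((a + 1) :: s))).subst (sh g) * d⁄dX ℚ (sh g)) := by rw [h2]
    _ = ((1 - (g : ℚ⟦X⟧) * X) ^ 2 * d⁄dX ℚ (sh g)) * (sh g * (d⁄dX ℚ (Lp ((a + 1) :: s))).subst (sh g)) := by ring
    _ = _ := by rw [h3, one_mul]

lemma yL_one (g : ℕ) (s : List ℕ) :
    (1 - (g : ℚ⟦X⟧) * X) * (1 - ((g : ℚ⟦X⟧) + 1) * X) * d⁄dX ℚ (yL g (0 :: s)) = yL g s := by
  have h1 := congrArg (fun f => f.subst (sh g)) (Lp_one s)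
  have h0 : (1 - X : ℚ⟦X⟧).subst (sh g) = 1 - sh g := by
    rw [subst_sub (sh_sub g), subst_X (sh_sub g), ← coe_substAlgHom (sh_sub g), map_one]
  simp only [subst_mul (sh_sub g), h0] at h1
  rw [yL, yL, derivative_subst (sh_sub g), ← h1]
  have h2 := sh_eq g
  have h3 := sh_der g
  have h4 : (1 - ((g : ℚ⟦X⟧) + 1) * X) = (1 - (g : ℚ⟦X⟧) * X) * (1 - sh g) := by
    rw [mul_sub, h2]
    ring
  rw [h4]
  calc (1 - (g : ℚ⟦X⟧) * X) * ((1 - (g : ℚ⟦X⟧) * X) * (1 - sh g)) *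
        ((d⁄dX ℚ (Lp (0 :: s))).subst (sh g) * d⁄dX ℚ (sh g)) =
      ((1 - (g : ℚ⟦X⟧) * X) ^ 2 * d⁄dX ℚ (sh g)) * ((1 - sh g) * (d⁄dX ℚ (Lp (0 :: s))).subst (sh g)) := by ring
    _ = _ := by rw [h3, one_mul]

/-! ## the polynomial `T` -/

/-- a linear factor -/
noncomputable def lf (α β : ℤ) : Polynomial ℤ := Polynomial.C α + Polynomial.C β * Polynomial.X

/-- `z (1 - g z) (1 - (g + 1) z)` -/
noncomputable def TL (g : ℕ) : Polynomial ℤ := lf 0 1 * lf 1 (-(g : ℤ)) * lf 1 (-((g : ℤ) + 1))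

lemma Bd_lf {α β : ℤ} {A : ℝ} (hα : |(α : ℝ)| ≤ A) (hβ : |(β : ℝ)| ≤ A) : Bd 1 A (lf α β) := by
  have hA : 0 ≤ A := (abs_nonneg _).trans hα
  refine ⟨?_, fun l => ?_⟩
  · unfold lf
    refine (Polynomial.natDegree_add_le _ _).trans (max_le (by simp) ?_)
    exact (Polynomial.natDegree_C_mul_le _ _).trans Polynomial.natDegree_X_le
  · unfold lf
    rw [Polynomial.coeff_add, Polynomial.coeff_C, Polynomial.coeff_C_mul, Polynomial.coeff_X]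
    rcases l with _ | _ | l
    · simpa using hα
    · simpa using hβ
    · simpa using hA

lemma bd_facts (g : ℕ) : |((0 : ℤ) : ℝ)| ≤ (g : ℝ) + 2 ∧ |((1 : ℤ) : ℝ)| ≤ (g : ℝ) + 2 ∧
    |((-(g : ℤ) : ℤ) : ℝ)| ≤ (g : ℝ) + 2 ∧ |((-((g : ℤ) + 1) : ℤ) : ℝ)| ≤ (g : ℝ) + 2 := by
  have hg : (0 : ℝ) ≤ g := by positivity
  refine ⟨?_, ?_, ?_, ?_⟩
  · simp
    linarith
  · simp
    linarith
  · push_cast
    rw [abs_neg, abs_of_nonneg hg]
    linarith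
  · push_cast
    rw [abs_neg, abs_of_nonneg (by linarith)]
    linarith

lemma Bd_two {α β α' β' : ℤ} {g : ℕ} (h1 : |(α : ℝ)| ≤ (g : ℝ) + 2) (h2 : |(β : ℝ)| ≤ (g : ℝ) + 2)
    (h3 : |(α' : ℝ)| ≤ (g : ℝ) + 2) (h4 : |(β' : ℝ)| ≤ (g : ℝ) + 2) :
    Bd 2 (((g : ℝ) + 2) ^ 3) (lf α β * lf α' β') := by
  refine ((Bd_lf h1 h2).mul (Bd_lf h3 h4)).mono le_rfl ?_
  have hg : (0 : ℝ) ≤ g := by positivity
  push_cast
  have : (1 + 1 : ℝ) ≤ (g : ℝ) + 2 := by linarith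
  calc (1 + 1 : ℝ) * (((g : ℝ) + 2) * ((g : ℝ) + 2)) ≤ ((g : ℝ) + 2) * (((g : ℝ) + 2) * ((g : ℝ) + 2)) :=
        mul_le_mul_of_nonneg_right this (by positivity)
    _ = ((g : ℝ) + 2) ^ 3 := by ring

lemma Bd_TL (g : ℕ) : Bd 3 (((g : ℝ) + 2) ^ 6) (TL g) := by
  obtain ⟨h0, h1, h2, h3⟩ := bd_facts g
  refine ((Bd_two h0 h1 h1 h2).mul (Bd_lf h1 h3)).mono le_rfl ?_
  have hg : (0 : ℝ) ≤ g := by positivity
  push_cast
  have h4 : (2 + 1 : ℝ) ≤ ((g : ℝ) + 2) ^ 2 := by nlinarith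
  calc (2 + 1 : ℝ) * (((g : ℝ) + 2) ^ 3 * ((g : ℝ) + 2)) ≤ ((g : ℝ) + 2) ^ 2 * (((g : ℝ) + 2) ^ 3 * ((g : ℝ) + 2)) :=
        mul_le_mul_of_nonneg_right h4 (by positivity)
    _ = ((g : ℝ) + 2) ^ 6 := by ring

lemma ps_lf (α β : ℤ) : ps (lf α β) = (α : ℚ⟦X⟧) + (β : ℚ⟦X⟧) * X := by
  rw [lf, ps_lin]
  simp

section
variable {ι : Type} {y : ι → ℚ⟦X⟧}

lemma frac_unit {C : ℝ} {T R : Polynomial ℤ} {β : ℤ} (i : ι) (hβ : |(β : ℝ)| ≤ C) (hT : lf 1 β * R = T)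
    (hR : ∀ l, |((R.coeff l : ℤ) : ℝ)| ≤ C) : Frac C T y ((1 + (β : ℚ⟦X⟧) * X)⁻¹ * y i) ∧
    (1 + (β : ℚ⟦X⟧) * X) * ((1 + (β : ℚ⟦X⟧) * X)⁻¹ * y i) = y i := by
  have h0 : constantCoeff (1 + (β : ℚ⟦X⟧) * X) ≠ 0 := by simp
  have h1 : (1 + (β : ℚ⟦X⟧) * X) * ((1 + (β : ℚ⟦X⟧) * X)⁻¹ * y i) = y i := by
    rw [← mul_assoc, PowerSeries.mul_inv_cancel _ h0, one_mul]
  refine ⟨⟨1, β, R, i, Or.inl rfl, hβ, hT, hR, ?_⟩, h1⟩
  have h2 := ps_lf 1 β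
  rw [lf] at h2
  rw [h2]
  push_cast
  exact h1

lemma frac_X {C : ℝ} {T R : Polynomial ℤ} (i : ι) (h0 : coeff 0 (y i) = 0) (hC : 1 ≤ C) (hT : lf 0 1 * R = T)
    (hR : ∀ l, |((R.coeff l : ℤ) : ℝ)| ≤ C) : ∃ h : ℚ⟦X⟧, Frac C T y h ∧ X * h = y i := by
  obtain ⟨h, hh⟩ := (X_dvd_iff (φ := y i)).2 (by rw [← coeff_zero_eq_constantCoeff_apply]; exact h0)
  refine ⟨h, ⟨0, 1, R, i, Or.inr ⟨rfl, rfl⟩, by simpa using hC, hT, hR, ?_⟩, hh.symm⟩
  have h2 := ps_lf 0 1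
  rw [lf] at h2
  rw [h2, hh]
  push_cast
  ring
end

/-- weight -/
def wt (s : List ℕ) : ℕ := s.sum + s.length

lemma wt_nil : wt [] = 0 := rfl
lemma wt_cons (a : ℕ) (s : List ℕ) : wt (a :: s) = wt s + a + 1 := by
  simp [wt]
  ring

lemma wt_fin (n : ℕ) : {s : List ℕ | wt s ≤ n}.Finite := by
  induction n with
  | zero =>
    refine (Set.finite_singleton ([] : List ℕ)).subset ?_
    rintro (_ | ⟨a, s⟩) hs
    · rfl
    · simp only [Set.mem_ofPred_eq, wt_cons] at hs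
      omega
  | succ n ih =>
    refine (((Set.finite_singleton ([] : List ℕ)).union (ih.image fun s => 0 :: s)).union
      (ih.image fun s => (s.headD 0 + 1) :: s.tail)).subset ?_
    rintro (_ | ⟨_ | a, s⟩) hs
    · exact Or.inl (Or.inl rfl)
    · refine Or.inl (Or.inr ⟨s, ?_, rfl⟩)
      simp only [Set.mem_ofPred_eq, wt_cons] at hs ⊢
      omega
    · refine Or.inr ⟨a :: s, ?_, rfl⟩
      simp only [Set.mem_ofPred_eq, wt_cons] at hs ⊢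
      omega

/-- words of weight at most `n` -/
def W (n : ℕ) : Type := {s : List ℕ // wt s ≤ n}

noncomputable instance (n : ℕ) : Fintype (W n) := (wt_fin n).fintype
noncomputable instance (n : ℕ) : DecidableEq (W n) := Classical.decEq _

/-- the integrals are integrals -/
lemma intF_yL (n g : ℕ) {C : ℝ} (hC : ((g : ℝ) + 2) ^ 6 ≤ C) (s : List ℕ) (hs : s ≠ []) (hsn : wt s ≤ n + 1) :
    IntF 2 C (TL g) (fun w : W n => yL g w.1) (yL g s) := by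
  obtain ⟨h0, h1, h2, h3⟩ := bd_facts g
  have hg : (0 : ℝ) ≤ g := by positivity
  have hb1 : (1 : ℝ) ≤ (g : ℝ) + 2 := by linarith
  have hbC : (g : ℝ) + 2 ≤ C := (le_self_pow₀ hb1 (by norm_num)).trans hC
  have hbC3 : ((g : ℝ) + 2) ^ 3 ≤ C := (pow_le_pow_right₀ hb1 (by norm_num)).trans hC
  have hC1 : 1 ≤ C := hb1.trans hbC
  have hne : ∀ β : ℤ, (1 + (β : ℚ⟦X⟧) * X) ≠ 0 := by
    intro β h
    have := congrArg (fun f => constantCoeff f) h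
    simp at this
  obtain _ | ⟨_ | a, s⟩ := s
  · exact absurd rfl hs
  · rw [wt_cons] at hsn
    set i : W n := ⟨s, by omega⟩ with hi
    refine ⟨yL_zero g 0 s, ![(g : ℤ) + 1, -(g : ℤ)],
      ![(1 + ((-((g : ℤ) + 1) : ℤ) : ℚ⟦X⟧) * X)⁻¹ * yL g s, (1 + ((-(g : ℤ) : ℤ) : ℚ⟦X⟧) * X)⁻¹ * yL g s], ?_, ?_, ?_⟩
    · intro a
      fin_cases a
      · have := h3.trans hbC
        rw [Int.cast_neg, abs_neg] at this
        exact this
      · exact h2.trans hbC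
    · intro a
      fin_cases a
      · exact (frac_unit (y := fun w : W n => yL g w.1) i (h3.trans hbC)
          (show lf 1 (-((g : ℤ) + 1)) * (lf 0 1 * lf 1 (-(g : ℤ))) = TL g by rw [TL]; ring)
          (fun l => ((Bd_two h0 h1 h1 h2).2 l).trans hbC3)).1
      · exact (frac_unit (y := fun w : W n => yL g w.1) i (h2.trans hbC)
          (show lf 1 (-(g : ℤ)) * (lf 0 1 * lf 1 (-((g : ℤ) + 1))) = TL g by rw [TL]; ring)
          (fun l => ((Bd_two h0 h1 h1 h3).2 l).trans hbC3)).1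
    · rw [Fin.sum_univ_two]
      have e1 := (frac_unit (C := C) (y := fun w : W n => yL g w.1) i (h3.trans hbC)
          (show lf 1 (-((g : ℤ) + 1)) * (lf 0 1 * lf 1 (-(g : ℤ))) = TL g by rw [TL]; ring)
          (fun l => ((Bd_two h0 h1 h1 h2).2 l).trans hbC3)).2
      have e2 := (frac_unit (C := C) (y := fun w : W n => yL g w.1) i (h2.trans hbC)
          (show lf 1 (-(g : ℤ)) * (lf 0 1 * lf 1 (-((g : ℤ) + 1))) = TL g by rw [TL]; ring)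
          (fun l => ((Bd_two h0 h1 h1 h3).2 l).trans hbC3)).2
      refine mul_left_cancel₀ (mul_ne_zero (hne (-(g : ℤ))) (hne (-((g : ℤ) + 1)))) ?_
      have e3 := yL_one g s
      have e4 : (1 + ((-(g : ℤ) : ℤ) : ℚ⟦X⟧) * X) = 1 - (g : ℚ⟦X⟧) * X := by push_cast; ring
      have e5 : (1 + ((-((g : ℤ) + 1) : ℤ) : ℚ⟦X⟧) * X) = 1 - ((g : ℚ⟦X⟧) + 1) * X := by push_cast; ring
      simp only [Matrix.cons_val_zero, Matrix.cons_val_one]
      set A := (1 + ((-((g : ℤ) + 1) : ℤ) : ℚ⟦X⟧) * X)⁻¹ * yL g s with hA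
      set B := (1 + ((-(g : ℤ) : ℤ) : ℚ⟦X⟧) * X)⁻¹ * yL g s with hB
      have e6 : (1 - ((g : ℚ⟦X⟧) + 1) * X) * A = yL g s := by rw [← e5]; exact e1
      have e7 : (1 - (g : ℚ⟦X⟧) * X) * B = yL g s := by rw [← e4]; exact e2
      rw [e4, e5, e3]
      push_cast
      linear_combination (-(1 - (g : ℚ⟦X⟧) * X) * ((g : ℚ⟦X⟧) + 1)) * e6 + (1 - ((g : ℚ⟦X⟧) + 1) * X) * (g : ℚ⟦X⟧) * e7
  · rw [wt_cons] at hsn
    set i : W n := ⟨a :: s, by rw [wt_cons]; omega⟩ with hi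
    obtain ⟨A, hA1, hA2⟩ := frac_X (y := fun w : W n => yL g w.1) i (yL_zero g a s) hC1
      (show lf 0 1 * (lf 1 (-(g : ℤ)) * lf 1 (-((g : ℤ) + 1))) = TL g by rw [TL]; ring)
      (fun l => ((Bd_two h1 h2 h1 h3).2 l).trans hbC3)
    have hB := frac_unit (C := C) (y := fun w : W n => yL g w.1) i (h2.trans hbC)
          (show lf 1 (-(g : ℤ)) * (lf 0 1 * lf 1 (-((g : ℤ) + 1))) = TL g by rw [TL]; ring)
          (fun l => ((Bd_two h0 h1 h1 h3).2 l).trans hbC3)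
    refine ⟨yL_zero g (a + 1) s, ![1, (g : ℤ)], ![A, (1 + ((-(g : ℤ) : ℤ) : ℚ⟦X⟧) * X)⁻¹ * yL g (a :: s)], ?_, ?_, ?_⟩
    · intro a
      fin_cases a
      · exact h1.trans hbC
      · have := h2.trans hbC
        rw [Int.cast_neg, abs_neg] at this
        exact this
    · intro a
      fin_cases a
      · exact hA1
      · exact hB.1
    · rw [Fin.sum_univ_two]
      have e2 := hB.2
      refine mul_left_cancel₀ (mul_ne_zero (X_ne_zero) (hne (-(g : ℤ)))) ?_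
      have e3 := yL_succ g a s
      have e4 : (1 + ((-(g : ℤ) : ℤ) : ℚ⟦X⟧) * X) = 1 - (g : ℚ⟦X⟧) * X := by push_cast; ring
      simp only [Matrix.cons_val_zero, Matrix.cons_val_one]
      set B := (1 + ((-(g : ℤ) : ℤ) : ℚ⟦X⟧) * X)⁻¹ * yL g (a :: s) with hBd
      have e7 : (1 - (g : ℚ⟦X⟧) * X) * B = yL g (a :: s) := by rw [← e4]; exact e2
      have e8 : X * A = yL g (a :: s) := hA2
      rw [e4, e3]
      push_cast
      linear_combination (-(1 - (g : ℚ⟦X⟧) * X)) * e8 - (X * (g : ℚ⟦X⟧)) * e7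

/-- the words form a G-system -/
theorem gsys_W (n : ℕ) : ∃ E : ℕ, ∀ g : ℕ, GSys 3 (((g : ℝ) + 2) ^ E) (TL g) (fun w : W n => yL g w.1) := by
  classical
  induction n with
  | zero =>
    have hu : ∀ w : W 0, w.1 = [] := by
      rintro ⟨_ | ⟨a, s⟩, hs⟩
      · rfl
      · rw [wt_cons] at hs
        omega
    let u : Unique (W 0) := ⟨⟨⟨[], by simp [wt_nil]⟩⟩, fun w => Subtype.ext (hu w)⟩
    refine ⟨6, fun g => ?_⟩
    have h1 := @GSys.const (W 0) _ u 3 (((g : ℝ) + 2) ^ 6) (TL g) (one_le_pow₀ (one_le_base g)) (Bd_TL g).1 (Bd_TL g).2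
    have h2 : (fun w : W 0 => yL g w.1) = fun _ => 1 := by
      funext w
      rw [hu w, yL_nil]
    rw [h2]
    exact h1
  | succ n ih =>
    obtain ⟨E, hE⟩ := ih
    obtain ⟨E₁, hE₁⟩ := int_ext 3 2
    set κ : Type := {w : W (n + 1) // w.1 ≠ []} with hκ
    obtain ⟨E₂, hE₂⟩ := collapse (max (Fintype.card (W n ⊕ κ)) (Fintype.card (W (n + 1)))) 3
    set E' := max E 6 with hE'
    set E'' := (E' + 1) * E₁ with hE''
    refine ⟨(E'' + 1) * E₂, fun g => ?_⟩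
    have hb := one_le_base g
    have h1 : GSys 3 (((g : ℝ) + 2) ^ E') (TL g) (fun w : W n => yL g w.1) :=
      (hE g).mono le_rfl (base_mono hb (le_max_left _ _))
    have h2 := hE₁ (W n) κ _ _ _ (fun c : κ => yL g c.1.1) h1 fun c =>
      intF_yL n g (base_mono hb (le_max_right _ _)) c.1.1 c.2 c.1.2
    have h3 := h2.mono le_rfl (pow_base g _ _)
    have h4 := hE₂ (W n ⊕ κ) (W (n + 1)) _ _ _ (fun w : W (n + 1) => yL g w.1)
      (Sum.elim (fun w => ⟨w.1, w.2.trans (Nat.le_succ n)⟩) fun c => c.1) (le_max_left _ _) (le_max_right _ _) ?_ ?_ h3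
    · exact h4.mono le_rfl (pow_base g _ _)
    · rintro ⟨s, hs⟩
      by_cases h : s = []
      · refine ⟨Sum.inl ⟨[], by simp [wt_nil]⟩, ?_⟩
        apply Subtype.ext
        exact h.symm
      · exact ⟨Sum.inr ⟨⟨s, hs⟩, h⟩, rfl⟩
    · rintro (w | c) <;> rfl

/-! ## powers of the logarithm -/

/-- the divided powers of `log (1 - g z)` -/
noncomputable def yQ (g e : ℕ) : ℚ⟦X⟧ := PowerSeries.C (1 / (e.factorial : ℚ)) * lg g ^ e

lemma lg_zero (g : ℕ) : coeff 0 (lg g) = 0 := by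
  rw [lg, coeff_mk]
  simp

lemma lg_der (g : ℕ) : (1 - (g : ℚ⟦X⟧) * X) * d⁄dX ℚ (lg g) = -(g : ℚ⟦X⟧) := by
  have hg : (g : ℚ⟦X⟧) = PowerSeries.C (g : ℚ) := by simp
  have h : ∀ m : ℕ, coeff m (d⁄dX ℚ (lg g)) = -(g : ℚ) ^ (m + 1) := by
    intro m
    rw [coeff_derivative, lg, coeff_mk]
    have h : ((m : ℚ) + 1) ≠ 0 := by positivity
    push_cast
    field_simp
  ext m
  rw [sub_mul, one_mul, map_sub, h, hg, mul_assoc, coeff_C_mul, ← map_neg, coeff_C]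
  rcases m with _ | m
  · rw [coeff_zero_X_mul]
    simp
  · rw [coeff_succ_X_mul, h]
    simp
    ring

lemma yQ_nil (g : ℕ) : yQ g 0 = 1 := by simp [yQ]

lemma yQ_zero (g e : ℕ) : coeff 0 (yQ g (e + 1)) = 0 := by
  rw [yQ, coeff_C_mul, pow_succ', coeff_zero_eq_constantCoeff_apply, map_mul, ← coeff_zero_eq_constantCoeff_apply,
    lg_zero]
  simp

lemma yQ_succ (g e : ℕ) : (1 - (g : ℚ⟦X⟧) * X) * d⁄dX ℚ (yQ g (e + 1)) = -(g : ℚ⟦X⟧) * yQ g e := by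
  have h1 : d⁄dX ℚ (yQ g (e + 1)) = PowerSeries.C (1 / ((e + 1).factorial : ℚ)) *
      (((e : ℚ⟦X⟧) + 1) * (lg g ^ e * d⁄dX ℚ (lg g))) := by
    rw [yQ, Derivation.leibniz, derivative_C, Derivation.leibniz_pow]
    simp
  have h2 : PowerSeries.C (1 / ((e + 1).factorial : ℚ)) * ((e : ℚ⟦X⟧) + 1) = PowerSeries.C (1 / (e.factorial : ℚ)) := by
    have h3 : ((e : ℚ⟦X⟧) + 1) = PowerSeries.C ((e : ℚ) + 1) := by simp
    rw [h3, ← map_mul, Nat.factorial_succ]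
    congr 1
    have h : ((e : ℚ) + 1) ≠ 0 := by positivity
    push_cast
    field_simp
  have h4 := lg_der g
  calc (1 - (g : ℚ⟦X⟧) * X) * d⁄dX ℚ (yQ g (e + 1)) =
      (PowerSeries.C (1 / ((e + 1).factorial : ℚ)) * ((e : ℚ⟦X⟧) + 1)) * (lg g ^ e *
        ((1 - (g : ℚ⟦X⟧) * X) * d⁄dX ℚ (lg g))) := by rw [h1]; ring
    _ = -(g : ℚ⟦X⟧) * yQ g e := by rw [h2, h4, yQ]; ring

lemma intF_yQ (n g : ℕ) {C : ℝ} (hC : ((g : ℝ) + 2) ^ 6 ≤ C) (e : ℕ) (he : e ≤ n) :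
    IntF 1 C (TL g) (fun w : Fin (n + 1) => yQ g w) (yQ g (e + 1)) := by
  obtain ⟨h0, h1, h2, h3⟩ := bd_facts g
  have hg : (0 : ℝ) ≤ g := by positivity
  have hb1 : (1 : ℝ) ≤ (g : ℝ) + 2 := by linarith
  have hbC : (g : ℝ) + 2 ≤ C := (le_self_pow₀ hb1 (by norm_num)).trans hC
  have hbC3 : ((g : ℝ) + 2) ^ 3 ≤ C := (pow_le_pow_right₀ hb1 (by norm_num)).trans hC
  have hne : (1 + ((-(g : ℤ) : ℤ) : ℚ⟦X⟧) * X) ≠ 0 := by
    intro h
    have := congrArg (fun f => constantCoeff f) h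
    simp at this
  have hB := frac_unit (C := C) (y := fun w : Fin (n + 1) => yQ g w) ⟨e, Nat.lt_succ_of_le he⟩ (h2.trans hbC)
          (show lf 1 (-(g : ℤ)) * (lf 0 1 * lf 1 (-((g : ℤ) + 1))) = TL g by rw [TL]; ring)
          (fun l => ((Bd_two h0 h1 h1 h3).2 l).trans hbC3)
  refine ⟨yQ_zero g e, fun _ => -(g : ℤ), fun _ => (1 + ((-(g : ℤ) : ℤ) : ℚ⟦X⟧) * X)⁻¹ * yQ g e, ?_, ?_, ?_⟩
  · intro _
    exact h2.trans hbC
  · intro _
    exact hB.1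
  · rw [Fin.sum_univ_one]
    refine mul_left_cancel₀ hne ?_
    have e4 : (1 + ((-(g : ℤ) : ℤ) : ℚ⟦X⟧) * X) = 1 - (g : ℚ⟦X⟧) * X := by push_cast; ring
    have e7 : (1 + ((-(g : ℤ) : ℤ) : ℚ⟦X⟧) * X) * ((1 + ((-(g : ℤ) : ℤ) : ℚ⟦X⟧) * X)⁻¹ * yQ g e) = yQ g e := hB.2
    rw [mul_left_comm, e7, e4, yQ_succ]
    push_cast
    ring

/-- the powers of the logarithm form a G-system -/
theorem gsys_Q (n : ℕ) : ∃ E : ℕ, ∀ g : ℕ, GSys 3 (((g : ℝ) + 2) ^ E) (TL g) (fun w : Fin (n + 1) => yQ g w) := by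
  classical
  induction n with
  | zero =>
    refine ⟨6, fun g => ?_⟩
    have h1 := GSys.const (ι := Fin 1) (q := 3) (one_le_pow₀ (one_le_base g)) (Bd_TL g).1 (Bd_TL g).2
    have h2 : (fun w : Fin (0 + 1) => yQ g w) = fun _ => 1 := by
      funext w
      have : (w : ℕ) = 0 := by omega
      rw [this, yQ_nil]
    rw [h2]
    exact h1
  | succ n ih =>
    obtain ⟨E, hE⟩ := ih
    obtain ⟨E₁, hE₁⟩ := int_ext 3 1
    obtain ⟨E₂, hE₂⟩ := collapse (max (Fintype.card (Fin (n + 1) ⊕ Fin (n + 1))) (Fintype.card (Fin (n + 1 + 1)))) 3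
    set E' := max E 6 with hE'
    set E'' := (E' + 1) * E₁ with hE''
    refine ⟨(E'' + 1) * E₂, fun g => ?_⟩
    have hb := one_le_base g
    have h1 : GSys 3 (((g : ℝ) + 2) ^ E') (TL g) (fun w : Fin (n + 1) => yQ g w) :=
      (hE g).mono le_rfl (base_mono hb (le_max_left _ _))
    have h2 := hE₁ (Fin (n + 1)) (Fin (n + 1)) _ _ _ (fun c => yQ g ((c : ℕ) + 1)) h1 fun c =>
      intF_yQ n g (base_mono hb (le_max_right _ _)) c (Nat.lt_succ_iff.1 c.2)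
    have h3 := h2.mono le_rfl (pow_base g _ _)
    have h4 := hE₂ (Fin (n + 1) ⊕ Fin (n + 1)) (Fin (n + 1 + 1)) _ _ _ (fun w : Fin (n + 1 + 1) => yQ g w)
      (Sum.elim Fin.castSucc Fin.succ) (le_max_left _ _) (le_max_right _ _) ?_ ?_ h3
    · exact h4.mono le_rfl (pow_base g _ _)
    · intro w
      rcases Fin.eq_zero_or_eq_succ w with rfl | ⟨j, rfl⟩
      · exact ⟨Sum.inl 0, rfl⟩
      · exact ⟨Sum.inr j, rfl⟩
    · rintro (w | c)
      · simp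
      · simp

/-- the indices: a power of the logarithm and a word -/
abbrev Ix (n : ℕ) : Type := Fin (n + 1) × W n

/-- the functions -/
noncomputable def FF (n g : ℕ) (b : Ix n) : ℚ⟦X⟧ := yQ g b.1 * yL g b.2.1

theorem gsys_FF (n : ℕ) : ∃ E : ℕ, ∀ g : ℕ, GSys 3 (((g : ℝ) + 2) ^ E) (TL g) (FF n g) := by
  obtain ⟨E, hE⟩ := gsys_Q n
  obtain ⟨E', hE'⟩ := gsys_W n
  obtain ⟨E₁, hE₁⟩ := t_prod 3
  refine ⟨(max E E' + 1) * E₁, fun g => ?_⟩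
  have h1 := (hE g).mono le_rfl (base_mono (one_le_base g) (le_max_left E E'))
  have h2 := (hE' g).mono le_rfl (base_mono (one_le_base g) (le_max_right E E'))
  exact (hE₁ _ _ _ _ _ _ h1 h2).mono le_rfl (pow_base g _ _)

/-- products over several shifts of a family of G-systems -/
theorem gsys_multi {σ : Type} [Fintype σ] (F : ℕ → σ → ℚ⟦X⟧) (Tg : ℕ → Polynomial ℤ) (q₀ E₀ : ℕ)
    (hF : ∀ g : ℕ, GSys q₀ (((g : ℝ) + 2) ^ E₀) (Tg g) (F g)) (k : ℕ) :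
    ∃ q E : ℕ, ∀ (H : ℕ) (g : Fin k → ℕ), (∀ l, g l ≤ H) →
      GSys q (((H : ℝ) + 2) ^ E) (∏ l, Tg (g l)) (fun b : Fin k → σ => ∏ l, F (g l) (b l)) := by
  induction k with
  | zero =>
    refine ⟨0, 0, fun H g _ => ?_⟩
    have h1 : GSys 0 (1 : ℝ) 1 (fun _ : Fin 0 → σ => (1 : ℚ⟦X⟧)) := by
      refine GSys.const le_rfl (by simp) fun l => ?_
      rw [Polynomial.coeff_one]
      split_ifs <;> simp
    simpa using h1
  | succ k ih =>
    obtain ⟨q, E, hE⟩ := ih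
    obtain ⟨E₁, hE₁⟩ := t_enl q₀ q
    obtain ⟨E₂, hE₂⟩ := t_enl q q₀
    obtain ⟨E₃, hE₃⟩ := t_prod (q + q₀)
    set E' := max E₀ E with hE'
    set E'' := (E' + 1) * (max E₁ E₂) with hE''
    refine ⟨q + q₀, (E'' + 1) * E₃, fun H g hg => ?_⟩
    have hg1 := one_le_base H
    have hgH : ((g 0 : ℕ) : ℝ) + 2 ≤ (H : ℝ) + 2 := by
      have : ((g 0 : ℕ) : ℝ) ≤ H := by exact_mod_cast hg 0
      linarith
    have h1 : GSys q₀ (((H : ℝ) + 2) ^ E') (Tg (g 0)) (F (g 0)) := by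
      refine (hF (g 0)).mono le_rfl ?_
      exact (pow_le_pow_left₀ (by positivity) hgH _).trans (base_mono hg1 (le_max_left _ _))
    have h2 : GSys q (((H : ℝ) + 2) ^ E') (∏ l : Fin k, Tg (g l.succ))
        (fun b : Fin k → σ => ∏ l, F (g l.succ) (b l)) :=
      (hE H (fun l => g l.succ) fun l => hg l.succ).mono le_rfl (base_mono hg1 (le_max_right _ _))
    have h3 := hE₁ _ _ _ (∏ l : Fin k, Tg (g l.succ)) _ h1 h2.degT h2.sizeT
    have h4 := hE₂ _ _ _ (Tg (g 0)) _ h2 h1.degT h1.sizeT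
    have hE1 : (2 * ((H : ℝ) + 2) ^ E') ^ E₁ ≤ ((H : ℝ) + 2) ^ E'' := by
      refine (pow_base H _ _).trans (base_mono hg1 ?_)
      exact Nat.mul_le_mul_left _ (le_max_left _ _)
    have hE2 : (2 * ((H : ℝ) + 2) ^ E') ^ E₂ ≤ ((H : ℝ) + 2) ^ E'' := by
      refine (pow_base H _ _).trans (base_mono hg1 ?_)
      exact Nat.mul_le_mul_left _ (le_max_right _ _)
    have hPT : ∏ l, Tg (g l) = Tg (g 0) * ∏ l : Fin k, Tg (g l.succ) := Fin.prod_univ_succ _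
    have h5 : GSys (q + q₀) (((H : ℝ) + 2) ^ E'') (∏ l, Tg (g l)) (F (g 0)) := by
      rw [hPT]
      exact h3.mono (by omega) hE1
    have h6 : GSys (q + q₀) (((H : ℝ) + 2) ^ E'') (∏ l, Tg (g l)) (fun b : Fin k → σ => ∏ l, F (g l.succ) (b l)) := by
      rw [hPT, mul_comm]
      exact h4.mono le_rfl hE2
    have h7 := (hE₃ _ _ _ _ _ _ h5 h6).mono le_rfl (pow_base H _ _)
    have h8 := h7.reindex (Fin.consEquiv fun _ => σ).symm
    have h9 : (fun b : Fin (k + 1) → σ => ∏ l, F (g l) (b l)) = fun j =>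
        F (g 0) ((Fin.consEquiv fun _ => σ).symm j).1 *
          ∏ l : Fin k, F (g l.succ) (((Fin.consEquiv fun _ => σ).symm j).2 l) := by
      funext b
      rw [Fin.prod_univ_succ]
      rfl
    rw [h9]
    exact h8

end Pool.Agent.Y120.GF
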