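import Pool.Agent.Y113.P.Fin

/-!
# Integration extends a G-system
-/

set_option autoImplicit false

open PowerSeries Finset.HasAntidiagonal Pool.Agent.Y113

namespace Pool.Agent.Y120.GF

theorem lcmUpto_le (n : ℕ) : Nat.lcmUpto n ≤ 219 ^ n := by
  have h1 := Chebyshev.psi_eq_log_lcmUpto n
  have h2 : Chebyshev.psi (n : ℝ) ≤ (Real.log 4 + 4) * n :=
    Chebyshev.psi_le_const_mul_self (Nat.cast_nonneg n)
  have hpos : (0 : ℝ) < (Nat.lcmUpto n : ℝ) := by exact_mod_cast Nat.lcmUpto_pos n
  have h3 : Real.log (Nat.lcmUpto n) ≤ (Real.log 4 + 4) * n := by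
    rw [← h1]; exact h2
  have h4 : (Nat.lcmUpto n : ℝ) ≤ Real.exp ((Real.log 4 + 4) * n) :=
    (Real.log_le_iff_le_exp hpos).1 h3
  have h5 : Real.exp ((Real.log 4 + 4) * n) = (4 * Real.exp 1 ^ 4) ^ n := by
    rw [mul_comm, Real.exp_nat_mul, Real.exp_add, Real.exp_log (by norm_num)]
    congr 2
    rw [← Real.exp_nat_mul]
    norm_num
  have h6 : 4 * Real.exp 1 ^ 4 ≤ 219 := by
    have h7 : Real.exp 1 ≤ 2.7182818286 := Real.exp_one_lt_d9.le
    have h8 : Real.exp 1 ^ 4 ≤ 2.7182818286 ^ 4 := pow_le_pow_left₀ (Real.exp_pos 1).le h7 4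
    norm_num at h8 ⊢
    linarith
  have h9 : (Nat.lcmUpto n : ℝ) ≤ (219 : ℝ) ^ n := by
    rw [h5] at h4
    exact h4.trans (pow_le_pow_left₀ (by positivity) h6 n)
  exact_mod_cast h9

theorem dvd_lcmUpto {j n : ℕ} (hj : 1 ≤ j) (hjn : j ≤ n) : j ∣ Nat.lcmUpto n :=
  Finset.dvd_lcm (f := id) (Finset.mem_Icc.2 ⟨hj, hjn⟩)

/-- the divided derivative of the derivative -/
lemma hd_deriv (s : ℕ) (f : ℚ⟦X⟧) : ((s : ℚ⟦X⟧) + 1) * hd (s + 1) f = hd s (d⁄dX ℚ f) := by
  rw [← deriv_hd]
  ext m
  rw [coeff_derivative, coeff_hd, coeff_hd, coeff_derivative]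
  have h4 : ((m + 1 + s).choose s : ℚ) * (m + 1) = ((m + s).choose s : ℚ) * (m + s + 1) := by
    have h5 : (m + 1 + s).choose s * (m + 1) = (m + s).choose s * (m + s + 1) := by
      have := Nat.choose_mul_succ_eq (m + s) s
      rw [show m + 1 + s = m + s + 1 by ring]
      have h6 : m + s + 1 - s = m + 1 := by omega
      rw [h6] at this
      linarith
    exact_mod_cast h5
  rw [show m + 1 + s = m + s + 1 by ring] at *
  push_cast
  linear_combination (coeff (m + s + 1) f) * h4

variable {ι κ : Type} [Fintype ι] [Fintype κ] {q : ℕ} {C : ℝ} {T : Polynomial ℤ} {y : ι → ℚ⟦X⟧}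

/-- a member of the family divided by a linear factor of `T` -/
def Frac (C : ℝ) (T : Polynomial ℤ) (y : ι → ℚ⟦X⟧) (h : ℚ⟦X⟧) : Prop :=
  ∃ (α β : ℤ) (R : Polynomial ℤ) (i : ι), (α = 1 ∨ (α = 0 ∧ β = 1)) ∧ |(β : ℝ)| ≤ C ∧
    (Polynomial.C α + Polynomial.C β * Polynomial.X) * R = T ∧ (∀ l, |((R.coeff l : ℤ) : ℝ)| ≤ C) ∧
    ps (Polynomial.C α + Polynomial.C β * Polynomial.X) * h = y i

lemma ps_lin (α β : ℤ) : ps (Polynomial.C α + Polynomial.C β * Polynomial.X) = PowerSeries.C (α : ℚ) +
    PowerSeries.C (β : ℚ) * X := by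
  unfold ps
  rw [Polynomial.map_add, Polynomial.map_mul, Polynomial.map_C, Polynomial.map_C, Polynomial.map_X,
    Polynomial.coe_add, Polynomial.coe_mul, Polynomial.coe_C, Polynomial.coe_C, Polynomial.coe_X]
  rfl

lemma coeff_lin_zero {α β : ℤ} {h y : ℚ⟦X⟧} (hy : ps (Polynomial.C α + Polynomial.C β * Polynomial.X) * h = y) :
    coeff 0 y = α * coeff 0 h := by
  rw [← hy, ps_lin, add_mul, mul_assoc, map_add, coeff_C_mul, coeff_C_mul, coeff_zero_X_mul, mul_zero, add_zero]

lemma coeff_lin_succ {α β : ℤ} {h y : ℚ⟦X⟧} (hy : ps (Polynomial.C α + Polynomial.C β * Polynomial.X) * h = y)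
    (m : ℕ) : coeff (m + 1) y = α * coeff (m + 1) h + β * coeff m h := by
  rw [← hy, ps_lin, add_mul, mul_assoc, map_add, coeff_C_mul, coeff_C_mul, coeff_succ_X_mul]

lemma Frac.size (hy : GSys q C T y) {h : ℚ⟦X⟧} (hh : Frac C T y h) (m : ℕ) :
    |((coeff m h : ℚ) : ℝ)| ≤ (m + 1) * (C * C) ^ (m + 1) := by
  obtain ⟨α, β, R, i, hα, hβ, -, -, hi⟩ := hh
  have hC := hy.one_le
  have hC0 : 0 < C := zero_lt_one.trans_le hC
  rcases hα with rfl | ⟨rfl, rfl⟩
  · induction m with
    | zero =>
      have h1 := coeff_lin_zero hi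
      have h2 := hy.size i 0
      rw [h1] at h2
      push_cast at h2 ⊢
      rw [one_mul] at h2
      refine h2.trans ?_
      simp only [zero_add, pow_one, one_mul]
      nlinarith
    | succ m ih =>
      have h1 := coeff_lin_succ hi m
      have h2 := hy.size i (m + 1)
      have h3 : ((coeff (m + 1) h : ℚ) : ℝ) = ((coeff (m + 1) (y i) : ℚ) : ℝ) - β * ((coeff m h : ℚ) : ℝ) := by
        rw [h1]
        push_cast
        ring
      rw [h3]
      have h4 : C ^ (m + 2) ≤ (C * C) ^ (m + 2) := pow_le_pow_left₀ hC0.le (by nlinarith) _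
      calc |((coeff (m + 1) (y i) : ℚ) : ℝ) - β * ((coeff m h : ℚ) : ℝ)|
          ≤ |((coeff (m + 1) (y i) : ℚ) : ℝ)| + |(β : ℝ)| * |((coeff m h : ℚ) : ℝ)| := by
            rw [← abs_mul]
            exact abs_sub _ _
        _ ≤ (C * C) ^ (m + 2) + C * ((m + 1) * (C * C) ^ (m + 1)) :=
            add_le_add (h2.trans h4) (mul_le_mul hβ ih (abs_nonneg _) hC0.le)
        _ ≤ (C * C) ^ (m + 2) + (C * C) * ((m + 1) * (C * C) ^ (m + 1)) := by
            refine add_le_add le_rfl (mul_le_mul_of_nonneg_right (by nlinarith) (by positivity))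
        _ = (((m + 1 : ℕ) : ℝ) + 1) * (C * C) ^ (m + 1 + 1) := by
            push_cast
            ring
  · have h1 := coeff_lin_succ hi m
    have h2 := hy.size i (m + 1)
    have h3 : coeff m h = coeff (m + 1) (y i) := by
      rw [h1]
      simp
    rw [h3]
    refine h2.trans ?_
    have h4 : C ^ (m + 1 + 1) ≤ (C * C) ^ (m + 1) := by
      rw [← pow_two, ← pow_mul]
      exact pow_le_pow_right₀ hC (by omega)
    have h5 : (0 : ℝ) ≤ (C * C) ^ (m + 1) := by positivity
    have h6 : (0 : ℝ) ≤ m := by positivity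
    nlinarith

omit [Fintype ι] in
lemma Frac.den {d m : ℕ} (hd : ∀ i, ∀ j ≤ m, ∃ a : ℤ, (d : ℚ) * coeff j (y i) = a) {h : ℚ⟦X⟧} (hh : Frac C T y h) :
    ∀ j < m, ∃ a : ℤ, (d : ℚ) * coeff j h = a := by
  obtain ⟨α, β, R, i, hα, hβ, -, -, hi⟩ := hh
  rcases hα with rfl | ⟨rfl, rfl⟩
  · intro j
    induction j with
    | zero =>
      intro hj
      obtain ⟨a, ha⟩ := hd i 0 (by omega)
      refine ⟨a, ?_⟩
      rw [coeff_lin_zero hi] at ha
      rw [← ha]
      simp
    | succ j ih =>
      intro hj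
      obtain ⟨a, ha⟩ := hd i (j + 1) hj.le
      obtain ⟨b, hb⟩ := ih (by omega)
      refine ⟨a - β * b, ?_⟩
      rw [coeff_lin_succ hi] at ha
      push_cast at ha ⊢
      rw [← ha, ← hb]
      ring
  · intro j hj
    obtain ⟨a, ha⟩ := hd i (j + 1) hj
    refine ⟨a, ?_⟩
    rw [coeff_lin_succ hi] at ha
    rw [← ha]
    simp

lemma hd_lin (α β : ℤ) (s : ℕ) (h : ℚ⟦X⟧) :
    hd (s + 1) (ps (Polynomial.C α + Polynomial.C β * Polynomial.X) * h) =
      ps (Polynomial.C α + Polynomial.C β * Polynomial.X) * hd (s + 1) h + (β : ℚ⟦X⟧) * hd s h := by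
  have hβ : (β : ℚ⟦X⟧) = PowerSeries.C (β : ℚ) := by simp
  rw [ps_lin, add_mul, mul_assoc, hd_add, hd_C_mul, hd_C_mul, add_mul, mul_assoc, add_assoc, hβ, ← mul_add]
  congr 2
  ext m
  rw [map_add, coeff_hd, coeff_hd]
  rcases m with _ | m
  · rw [coeff_zero_X_mul]
    simp only [Nat.choose_self, Nat.cast_one, one_mul, zero_add]
    rw [coeff_succ_X_mul]
  · rw [coeff_succ_X_mul, coeff_hd, show m + 1 + (s + 1) = (m + 1 + s) + 1 by ring, coeff_succ_X_mul,
      show m + (s + 1) = m + 1 + s by ring]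
    have := Nat.choose_succ_succ (m + 1 + s) s
    rw [show m + 1 + s + 1 = (m + 1 + s).succ by rfl, this]
    push_cast
    ring

/-- the divided derivatives of a fraction -/
lemma Frac.der (hy : GSys q C T y) {h : ℚ⟦X⟧} (hh : Frac C T y h) {k g : ℕ}
    (hg : ∀ s ≤ k, ∃ G : ι → ι → Polynomial ℤ,
    (∀ i j, (G i j).natDegree ≤ q * s) ∧ (∀ i j l, |(((G i j).coeff l : ℤ) : ℝ)| ≤ C ^ (k + 1)) ∧
    ∀ i, (g : ℚ⟦X⟧) * (ps T ^ s * hd s (y i)) = ∑ j, ps (G i j) * y j) :
    ∀ s ≤ k, ∃ G : ι → Polynomial ℤ, (∀ j, Bd (q * (s + 1)) ((s + 1) * ((2 ^ q * C ^ 2) ^ (s + 1) * C ^ (k + 1))) (G j)) ∧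
      (g : ℚ⟦X⟧) * (ps T ^ (s + 1) * hd s h) = ∑ j, ps (G j) * y j := by
  have hC := hy.one_le
  have hC0 : 0 < C := zero_lt_one.trans_le hC
  obtain ⟨α, β, R, i, hα, hβ, hR, hRc, hi⟩ := hh
  have hRd : R.natDegree ≤ q := by
    by_cases hR0 : R = 0
    · rw [hR0]; simp
    · have hl0 : Polynomial.C α + Polynomial.C β * Polynomial.X ≠ (0 : Polynomial ℤ) := by
        intro h0
        rcases hα with rfl | ⟨rfl, rfl⟩
        · have e1 := congrArg (fun P : Polynomial ℤ => P.eval 0) h0
          simp at e1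
        · have e1 := congrArg (fun P : Polynomial ℤ => P.eval 1) h0
          simp at e1
      have h1 := hy.degT
      rw [← hR, Polynomial.natDegree_mul hl0 hR0] at h1
      omega
  have hBR : Bd q C R := ⟨hRd, hRc⟩
  have hq2 : ((q : ℝ) + 1) ≤ 2 ^ q := succ_le_two_pow q
  have hB1 : (1 : ℝ) ≤ 2 ^ q * C ^ 2 := by
    have e1 : (1 : ℝ) ≤ 2 ^ q := one_le_pow₀ (by norm_num)
    have e2 : (1 : ℝ) ≤ C ^ 2 := one_le_pow₀ hC
    nlinarith
  have hps : ps T = ps (Polynomial.C α + Polynomial.C β * Polynomial.X) * ps R := by rw [← ps_mul, hR]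
  intro s
  induction s with
  | zero =>
    intro hs
    obtain ⟨G, h1, h2, h3⟩ := hg 0 hs
    refine ⟨fun j => R * G i j, fun j => ?_, ?_⟩
    · have e1 : Bd 0 (C ^ (k + 1)) (G i j) := ⟨by simpa using h1 i j, h2 i j⟩
      refine (hBR.mul e1).mono (by omega) ?_
      simp only [Nat.cast_zero, zero_add, one_mul, pow_one]
      calc ((q : ℝ) + 1) * (C * C ^ (k + 1)) ≤ 2 ^ q * (C ^ 2 * C ^ (k + 1)) := by
            refine mul_le_mul hq2 (mul_le_mul_of_nonneg_right (by nlinarith) (by positivity)) (by positivity)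
              (by positivity)
        _ = 2 ^ q * C ^ 2 * C ^ (k + 1) := by ring
    · have e1 := h3 i
      rw [pow_zero, one_mul, hd_zero] at e1
      rw [zero_add, pow_one, hd_zero, hps]
      calc (g : ℚ⟦X⟧) * (ps (Polynomial.C α + Polynomial.C β * Polynomial.X) * ps R * h) =
          ps R * ((g : ℚ⟦X⟧) * (ps (Polynomial.C α + Polynomial.C β * Polynomial.X) * h)) := by ring
        _ = ∑ j, ps (R * G i j) * y j := by
          rw [hi, e1, Finset.mul_sum]
          refine Finset.sum_congr rfl fun j _ => ?_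
          rw [ps_mul]
          ring
  | succ s ih =>
    intro hs
    obtain ⟨Gh, e1, e2⟩ := ih (by omega)
    obtain ⟨G, h1, h2, h3⟩ := hg (s + 1) hs
    refine ⟨fun j => R * G i j + Polynomial.C (-β) * (R * Gh j), fun j => ?_, ?_⟩
    · have f1 : Bd (q * (s + 1)) (C ^ (k + 1)) (G i j) := ⟨h1 i j, h2 i j⟩
      have f2 := (hBR.mul f1).mono (show q + q * (s + 1) ≤ q * (s + 1 + 1) by ring_nf; rfl) le_rfl
      have f3 : Bd (q * (s + 1 + 1)) (C * ((q + 1) * (C * ((s + 1) * ((2 ^ q * C ^ 2) ^ (s + 1) * C ^ (k + 1))))))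
          (Polynomial.C (-β) * (R * Gh j)) := by
        refine Bd.C_mul ((hBR.mul (e1 j)).mono (by ring_nf; rfl) le_rfl) ?_
        push_cast
        rw [abs_neg]
        exact hβ
      refine ⟨(Polynomial.natDegree_add_le _ _).trans (max_le f2.1 f3.1), fun l => ?_⟩
      rw [Polynomial.coeff_add]
      push_cast
      refine (abs_add_le _ _).trans ((add_le_add (f2.2 l) (f3.2 l)).trans ?_)
      set B : ℝ := 2 ^ q * C ^ 2 with hB
      have hs0 : (0 : ℝ) ≤ s := by positivity
      have g1 : ((q : ℝ) + 1) * (C * C ^ (k + 1)) ≤ B ^ (s + 1 + 1) * C ^ (k + 1) := by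
        calc ((q : ℝ) + 1) * (C * C ^ (k + 1)) ≤ 2 ^ q * (C ^ 2 * C ^ (k + 1)) := by
              refine mul_le_mul hq2 (mul_le_mul_of_nonneg_right (by nlinarith) (by positivity)) (by positivity)
                (by positivity)
          _ = B * C ^ (k + 1) := by rw [hB]; ring
          _ ≤ B ^ (s + 1 + 1) * C ^ (k + 1) := by
              refine mul_le_mul_of_nonneg_right ?_ (by positivity)
              exact le_self_pow₀ hB1 (by omega)
      have g2 : C * (((q : ℝ) + 1) * (C * ((s + 1) * (B ^ (s + 1) * C ^ (k + 1))))) ≤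
          (s + 1) * (B ^ (s + 1 + 1) * C ^ (k + 1)) := by
        calc C * (((q : ℝ) + 1) * (C * ((s + 1) * (B ^ (s + 1) * C ^ (k + 1))))) =
            ((q : ℝ) + 1) * (C ^ 2 * ((s + 1) * (B ^ (s + 1) * C ^ (k + 1)))) := by ring
          _ ≤ 2 ^ q * (C ^ 2 * ((s + 1) * (B ^ (s + 1) * C ^ (k + 1)))) :=
              mul_le_mul_of_nonneg_right hq2 (by positivity)
          _ = (s + 1) * (B ^ (s + 1 + 1) * C ^ (k + 1)) := by rw [pow_succ B (s + 1), hB]; ring
      calc ((q : ℝ) + 1) * (C * C ^ (k + 1)) + C * (((q : ℝ) + 1) * (C * ((s + 1) * (B ^ (s + 1) * C ^ (k + 1)))))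
          ≤ B ^ (s + 1 + 1) * C ^ (k + 1) + (s + 1) * (B ^ (s + 1 + 1) * C ^ (k + 1)) := add_le_add g1 g2
        _ = (((s : ℝ) + 1) + 1) * (B ^ (s + 1 + 1) * C ^ (k + 1)) := by ring
    · have f1 := h3 i
      have f2 := hd_lin α β s h
      rw [hi] at f2
      have f3 : (g : ℚ⟦X⟧) * (ps T ^ (s + 1 + 1) * hd (s + 1) h) =
          ps R * ((g : ℚ⟦X⟧) * (ps T ^ (s + 1) * hd (s + 1) (y i))) -
            (β : ℚ⟦X⟧) * (ps R * ((g : ℚ⟦X⟧) * (ps T ^ (s + 1) * hd s h))) := by
        rw [f2, pow_succ (ps T) (s + 1), hps]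
        ring
      rw [f3, f1, e2, Finset.mul_sum, Finset.mul_sum, Finset.mul_sum, ← Finset.sum_sub_distrib]
      refine Finset.sum_congr rfl fun j _ => ?_
      have f4 : ps (R * G i j + Polynomial.C (-β) * (R * Gh j)) = ps R * ps (G i j) - (β : ℚ⟦X⟧) * (ps R * ps (Gh j)) := by
        have : ps (R * G i j + Polynomial.C (-β) * (R * Gh j)) =
            ps (R * G i j) + ps (Polynomial.C (-β) * (R * Gh j)) := by
          simp [ps]
        rw [this, ps_mul, ps_mul, ps_C, ps_mul]
        push_cast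
        ring
      rw [f4]
      ring

/-- an integral of a combination of fractions -/
def IntF (r : ℕ) (C : ℝ) (T : Polynomial ℤ) (y : ι → ℚ⟦X⟧) (f : ℚ⟦X⟧) : Prop :=
  coeff 0 f = 0 ∧ ∃ (n : Fin r → ℤ) (h : Fin r → ℚ⟦X⟧), (∀ a, |(n a : ℝ)| ≤ C) ∧ (∀ a, Frac C T y (h a)) ∧
    d⁄dX ℚ f = ∑ a, (n a : ℚ⟦X⟧) * h a

omit [Fintype ι] in
lemma coeff_int {r : ℕ} {f : ℚ⟦X⟧} {n : Fin r → ℤ} {h : Fin r → ℚ⟦X⟧}
    (hf : d⁄dX ℚ f = ∑ a, (n a : ℚ⟦X⟧) * h a) (m : ℕ) :
    coeff (m + 1) f * ((m : ℚ) + 1) = ∑ a, (n a : ℚ) * coeff m (h a) := by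
  have h1 := congrArg (coeff m) hf
  rw [coeff_derivative, map_sum] at h1
  rw [h1]
  refine Finset.sum_congr rfl fun a _ => ?_
  have h2 : (n a : ℚ⟦X⟧) = PowerSeries.C (n a : ℚ) := by simp
  rw [h2, coeff_C_mul]

/-- integration extends a G-system -/
theorem int_ext (q r : ℕ) : ∃ E : ℕ, ∀ (ι κ : Type) [Fintype ι] [Fintype κ] (C : ℝ) (T : Polynomial ℤ)
    (y : ι → ℚ⟦X⟧) (f : κ → ℚ⟦X⟧), GSys q C T y → (∀ c, IntF r C T y (f c)) →
    GSys q ((2 * C) ^ E) T (Sum.elim y f) := by
  classical
  refine ⟨q + r + 20, ?_⟩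
  intro ι κ _ _ C T y f hy hf
  set E := q + r + 20 with hE
  have hC := hy.one_le
  have hC0 : 0 < C := zero_lt_one.trans_le hC
  have h2C : 1 ≤ 2 * C := by linarith
  have hCC : C ≤ (2 * C) ^ E := by
    calc C ≤ 2 * C := by linarith
      _ = (2 * C) ^ 1 := (pow_one _).symm
      _ ≤ _ := pow_le_pow_right₀ h2C (by omega)
  have hC2 : ∀ m : ℕ, C ^ (m + 1) ≤ ((2 * C) ^ E) ^ (m + 1) := fun m => pow_le_pow_left₀ hC0.le hCC _
  have h219 : ∀ k : ℕ, ((Nat.lcmUpto k : ℕ) : ℝ) * C ^ (k + 1) ≤ ((2 * C) ^ E) ^ (k + 1) := by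
    intro k
    have e1 : ((Nat.lcmUpto k : ℕ) : ℝ) ≤ 219 ^ k := by exact_mod_cast lcmUpto_le k
    have e2 : (219 : ℝ) ^ k ≤ ((2 : ℝ) ^ 8) ^ (k + 1) :=
      (pow_le_pow_left₀ (by norm_num) (by norm_num) k).trans (pow_le_pow_right₀ (by norm_num) (by omega))
    calc ((Nat.lcmUpto k : ℕ) : ℝ) * C ^ (k + 1) ≤ ((2 : ℝ) ^ 8) ^ (k + 1) * C ^ (k + 1) :=
          mul_le_mul_of_nonneg_right (e1.trans e2) (by positivity)
      _ = (2 ^ 8 * C) ^ (k + 1) := (mul_pow _ _ _).symm
      _ ≤ ((2 * C) ^ 9) ^ (k + 1) := by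
          refine pow_le_pow_left₀ (by positivity) ?_ _
          rw [mul_pow]
          refine mul_le_mul (pow_le_pow_right₀ (by norm_num) (by norm_num)) (le_self_pow₀ hC (by norm_num)) hC0.le
            (by positivity)
      _ ≤ _ := pow_le_pow_left₀ (by positivity) (pow_le_pow_right₀ h2C (by omega)) _
  refine ⟨one_le_pow₀ h2C, hy.degT, fun l => (hy.sizeT l).trans hCC, ?_, ?_, ?_⟩
  · rintro (i | c) m
    · exact (hy.size i m).trans (hC2 m)
    · show |((coeff m (f c) : ℚ) : ℝ)| ≤ _
      obtain ⟨h0, n, h, hn, hh, hd⟩ := hf c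
      rcases m with _ | m
      · rw [h0]
        simp only [Rat.cast_zero, abs_zero]
        positivity
      · have e1 := coeff_int hd m
        have e2 : ((coeff (m + 1) (f c) : ℚ) : ℝ) * ((m : ℝ) + 1) = ∑ a, (n a : ℝ) * ((coeff m (h a) : ℚ) : ℝ) := by
          have := congrArg (fun z : ℚ => (z : ℝ)) e1
          push_cast at this
          exact this
        have e3 : |((coeff (m + 1) (f c) : ℚ) : ℝ)| * ((m : ℝ) + 1) ≤ r * (C * ((m + 1) * (C * C) ^ (m + 1))) := by
          have e4 : |((coeff (m + 1) (f c) : ℚ) : ℝ)| * ((m : ℝ) + 1) =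
              |∑ a, (n a : ℝ) * ((coeff m (h a) : ℚ) : ℝ)| := by
            rw [← e2, abs_mul]
            congr 1
            exact (abs_of_pos (by positivity)).symm
          rw [e4]
          refine (Finset.abs_sum_le_sum_abs _ _).trans ?_
          refine (Finset.sum_le_card_nsmul _ _ (C * ((m + 1) * (C * C) ^ (m + 1))) fun a _ => ?_).trans ?_
          · rw [abs_mul]
            exact mul_le_mul (hn a) ((hh a).size hy m) (abs_nonneg _) hC0.le
          · simp
        have e5 : |((coeff (m + 1) (f c) : ℚ) : ℝ)| ≤ r * (C * (C * C) ^ (m + 1)) := by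
          have e6 : (0 : ℝ) < (m : ℝ) + 1 := by positivity
          refine le_of_mul_le_mul_right (e3.trans (le_of_eq ?_)) e6
          ring
        refine e5.trans ?_
        have e7 : (r : ℝ) ≤ 2 ^ r := by
          have := succ_le_two_pow r
          linarith
        calc (r : ℝ) * (C * (C * C) ^ (m + 1)) ≤ 2 ^ r * (C * (C * C) ^ (m + 1)) :=
              mul_le_mul_of_nonneg_right e7 (by positivity)
          _ ≤ (2 * C) ^ r * ((2 * C) * ((2 * C) ^ 2) ^ (m + 1)) := by
              refine mul_le_mul (pow_le_pow_left₀ (by norm_num) (by linarith) _) ?_ (by positivity) (by positivity)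
              refine mul_le_mul (by linarith) (pow_le_pow_left₀ (by positivity) (by nlinarith) _) (by positivity)
                (by positivity)
          _ = (2 * C) ^ (r + 1 + 2 * (m + 1)) := by
              rw [← pow_mul]
              ring
          _ ≤ ((2 * C) ^ E) ^ (m + 1 + 1) := by
              rw [← pow_mul]
              refine pow_le_pow_right₀ h2C ?_
              have : (r + 3) * (m + 1 + 1) ≤ E * (m + 1 + 1) := Nat.mul_le_mul_right _ (by omega)
              nlinarith
  · intro m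
    obtain ⟨d, hd0, hd, hd'⟩ := hy.den m
    refine ⟨Nat.lcmUpto m * d, Nat.mul_pos (Nat.lcmUpto_pos m) hd0, ?_, ?_⟩
    · push_cast
      exact (mul_le_mul_of_nonneg_left hd (by positivity)).trans (h219 m)
    · rintro (i | c) j hj
      · show ∃ a : ℤ, ((Nat.lcmUpto m * d : ℕ) : ℚ) * coeff j (y i) = a
        obtain ⟨a, ha⟩ := hd' i j hj
        refine ⟨Nat.lcmUpto m * a, ?_⟩
        push_cast
        rw [mul_assoc, ha]
      · show ∃ a : ℤ, ((Nat.lcmUpto m * d : ℕ) : ℚ) * coeff j (f c) = a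
        obtain ⟨h0, n, h, hn, hh, hdf⟩ := hf c
        rcases j with _ | j
        · exact ⟨0, by rw [h0]; simp⟩
        · have e1 := coeff_int hdf j
          have e2 : ∀ a, ∃ b : ℤ, (d : ℚ) * coeff j (h a) = b := fun a => (hh a).den hd' j (by omega)
          choose b hb using e2
          obtain ⟨u, hu⟩ : (j + 1) ∣ Nat.lcmUpto m := dvd_lcmUpto (by omega) hj
          refine ⟨u * ∑ a, n a * b a, ?_⟩
          push_cast
          have e3 : (d : ℚ) * (coeff (j + 1) (f c) * ((j : ℚ) + 1)) = ∑ a, (n a : ℚ) * b a := by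
            rw [e1, Finset.mul_sum]
            refine Finset.sum_congr rfl fun a _ => ?_
            rw [← hb a]
            ring
          rw [← e3, hu]
          push_cast
          ring
  · intro k
    obtain ⟨g, hg0, hg, hg'⟩ := hy.der k
    refine ⟨Nat.lcmUpto k * g, Nat.mul_pos (Nat.lcmUpto_pos k) hg0, ?_, ?_⟩
    · push_cast
      exact (mul_le_mul_of_nonneg_left hg (by positivity)).trans (h219 k)
    · intro s hs
      have hL := h219 k
      -- rows for the old members
      obtain ⟨G, h1, h2, h3⟩ := hg' s hs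
      -- rows for the new members
      have hrow : ∀ c, ∃ Gc : ι ⊕ κ → Polynomial ℤ, (∀ j, Bd (q * s) (((2 * C) ^ E) ^ (k + 1)) (Gc j)) ∧
          ((Nat.lcmUpto k * g : ℕ) : ℚ⟦X⟧) * (ps T ^ s * hd s (f c)) = ∑ j, ps (Gc j) * Sum.elim y f j := by
        intro c
        rcases s with _ | s
        · refine ⟨fun j => if j = Sum.inr c then Polynomial.C ((Nat.lcmUpto k * g : ℕ) : ℤ) else 0, fun j => ?_, ?_⟩
          · have e0 : (0 : ℝ) ≤ ((2 * C) ^ E) ^ (k + 1) := by positivity
            have e1 : |((((Nat.lcmUpto k * g : ℕ) : ℤ)) : ℝ)| ≤ ((2 * C) ^ E) ^ (k + 1) := by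
              push_cast
              rw [abs_of_nonneg (by positivity)]
              exact (mul_le_mul_of_nonneg_left hg (by positivity)).trans hL
            beta_reduce
            split_ifs
            · refine ⟨by rw [Polynomial.natDegree_C]; omega, fun l => ?_⟩
              rw [Polynomial.coeff_C]
              split_ifs
              · exact e1
              · simpa using e0
            · exact ⟨by simp, fun l => by simpa using e0⟩
          · rw [pow_zero, one_mul, hd_zero, Finset.sum_eq_single (Sum.inr c)]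
            · beta_reduce
              rw [if_pos rfl, ps_C]
              simp
            · intro j _ hj
              beta_reduce
              rw [if_neg hj, ps_zero, zero_mul]
            · intro hh
              exact absurd (Finset.mem_univ _) hh
        · obtain ⟨h0, n, h, hn, hh, hdf⟩ := hf c
          have e1 : ∀ a, ∃ Ga : ι → Polynomial ℤ,
              (∀ j, Bd (q * (s + 1)) ((s + 1) * ((2 ^ q * C ^ 2) ^ (s + 1) * C ^ (k + 1))) (Ga j)) ∧
              (g : ℚ⟦X⟧) * (ps T ^ (s + 1) * hd s (h a)) = ∑ j, ps (Ga j) * y j :=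
            fun a => (hh a).der hy hg' s (by omega)
          choose Ga hGa1 hGa2 using e1
          obtain ⟨u, hu⟩ : (s + 1) ∣ Nat.lcmUpto k := dvd_lcmUpto (by omega) hs
          have hu0 : 0 < u := by
            rcases Nat.eq_zero_or_pos u with h | h
            · rw [h, mul_zero] at hu
              exact absurd hu (Nat.lcmUpto_pos k).ne'
            · exact h
          have hus : (u : ℝ) * ((s : ℝ) + 1) = (Nat.lcmUpto k : ℕ) := by
            rw [hu]
            push_cast
            ring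
          refine ⟨Sum.elim (fun j => ∑ a, Polynomial.C ((u : ℤ) * n a) * Ga a j) fun _ => 0, ?_, ?_⟩
          · rintro (j | c')
            · show Bd _ _ (∑ a, Polynomial.C ((u : ℤ) * n a) * Ga a j)
              have f1 : ∀ a ∈ (Finset.univ : Finset (Fin r)), Bd (q * (s + 1))
                  ((u * C) * ((s + 1) * ((2 ^ q * C ^ 2) ^ (s + 1) * C ^ (k + 1))))
                  (Polynomial.C ((u : ℤ) * n a) * Ga a j) := by
                intro a _
                refine Bd.C_mul (hGa1 a j) ?_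
                push_cast
                rw [abs_mul, abs_of_nonneg (by positivity : (0 : ℝ) ≤ (u : ℝ))]
                exact mul_le_mul_of_nonneg_left (hn a) (by positivity)
              refine (Bd.sum _ f1).mono le_rfl ?_
              rw [Finset.card_univ, Fintype.card_fin]
              have f2 : (r : ℝ) ≤ 2 ^ r := by
                have := succ_le_two_pow r
                linarith
              have f3 : ((2 : ℝ) ^ q * C ^ 2) ^ (s + 1) ≤ (2 ^ q * C ^ 2) ^ (k + 1) := by
                refine pow_le_pow_right₀ ?_ (by omega)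
                have e1 : (1 : ℝ) ≤ 2 ^ q := one_le_pow₀ (by norm_num)
                have e2 : (1 : ℝ) ≤ C ^ 2 := one_le_pow₀ hC
                nlinarith
              have f4 : ((Nat.lcmUpto k : ℕ) : ℝ) ≤ (2 ^ 8) ^ (k + 1) := by
                have e1 : ((Nat.lcmUpto k : ℕ) : ℝ) ≤ 219 ^ k := by exact_mod_cast lcmUpto_le k
                exact e1.trans ((pow_le_pow_left₀ (by norm_num) (by norm_num) k).trans
                  (pow_le_pow_right₀ (by norm_num) (by omega)))
              calc (r : ℝ) * ((u * C) * ((s + 1) * ((2 ^ q * C ^ 2) ^ (s + 1) * C ^ (k + 1)))) =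
                  r * (((Nat.lcmUpto k : ℕ) : ℝ) * (C * ((2 ^ q * C ^ 2) ^ (s + 1) * C ^ (k + 1)))) := by
                    rw [← hus]
                    ring
                _ ≤ 2 ^ r * ((2 ^ 8) ^ (k + 1) * (C * ((2 ^ q * C ^ 2) ^ (k + 1) * C ^ (k + 1)))) := by
                    refine mul_le_mul f2 ?_ (by positivity) (by positivity)
                    refine mul_le_mul f4 ?_ (by positivity) (by positivity)
                    refine mul_le_mul_of_nonneg_left ?_ hC0.le
                    exact mul_le_mul_of_nonneg_right f3 (by positivity)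
                _ ≤ (2 ^ r) ^ (k + 1) * ((2 ^ 8) ^ (k + 1) * (C ^ (k + 1) * ((2 ^ q * C ^ 2) ^ (k + 1) * C ^ (k + 1)))) := by
                    refine mul_le_mul (le_self_pow₀ (one_le_pow₀ (by norm_num)) (by omega)) ?_ (by positivity)
                      (by positivity)
                    refine mul_le_mul_of_nonneg_left ?_ (by positivity)
                    exact mul_le_mul_of_nonneg_right (le_self_pow₀ hC (by omega)) (by positivity)
                _ = (2 ^ (r + 8 + q) * C ^ 4) ^ (k + 1) := by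
                    rw [← mul_pow, ← mul_pow, ← mul_pow, ← mul_pow]
                    congr 1
                    ring
                _ ≤ ((2 * C) ^ E) ^ (k + 1) := by
                    refine pow_le_pow_left₀ (by positivity) ?_ _
                    rw [mul_pow]
                    exact mul_le_mul (pow_le_pow_right₀ (by norm_num) (by omega)) (pow_le_pow_right₀ hC (by omega))
                      (by positivity) (by positivity)
            · show Bd _ _ 0
              refine ⟨by simp, fun l => ?_⟩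
              simp only [Polynomial.coeff_zero, Int.cast_zero, abs_zero]
              positivity
          · rw [Fintype.sum_sum_type]
            simp only [Sum.elim_inl, Sum.elim_inr, ps_zero, zero_mul, Finset.sum_const_zero, add_zero]
            have e2 : ((s : ℚ⟦X⟧) + 1) * hd (s + 1) (f c) = ∑ a, (n a : ℚ⟦X⟧) * hd s (h a) := by
              rw [hd_deriv, hdf, hd_sum]
              refine Finset.sum_congr rfl fun a _ => ?_
              have e3 : (n a : ℚ⟦X⟧) = PowerSeries.C (n a : ℚ) := by simp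
              rw [e3, hd_C_mul]
            have e4 : ((Nat.lcmUpto k * g : ℕ) : ℚ⟦X⟧) = (u : ℚ⟦X⟧) * g * ((s : ℚ⟦X⟧) + 1) := by
              rw [hu]
              push_cast
              ring
            calc ((Nat.lcmUpto k * g : ℕ) : ℚ⟦X⟧) * (ps T ^ (s + 1) * hd (s + 1) (f c)) =
                (u : ℚ⟦X⟧) * g * ps T ^ (s + 1) * (((s : ℚ⟦X⟧) + 1) * hd (s + 1) (f c)) := by rw [e4]; ring
              _ = ∑ a, (u : ℚ⟦X⟧) * (n a : ℚ⟦X⟧) * ((g : ℚ⟦X⟧) * (ps T ^ (s + 1) * hd s (h a))) := by
                rw [e2, Finset.mul_sum]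
                refine Finset.sum_congr rfl fun a _ => ?_
                ring
              _ = ∑ a, ∑ j, ps (Polynomial.C ((u : ℤ) * n a) * Ga a j) * y j := by
                refine Finset.sum_congr rfl fun a _ => ?_
                rw [hGa2 a, Finset.mul_sum]
                refine Finset.sum_congr rfl fun j _ => ?_
                rw [ps_mul, ps_C]
                push_cast
                ring
              _ = ∑ j, ps (∑ a, Polynomial.C ((u : ℤ) * n a) * Ga a j) * y j := by
                rw [Finset.sum_comm]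
                refine Finset.sum_congr rfl fun j _ => ?_
                rw [ps_sum, Finset.sum_mul]
      choose Gc hGc1 hGc2 using hrow
      refine ⟨Sum.elim (fun i => Sum.elim (fun j => Polynomial.C ((Nat.lcmUpto k : ℕ) : ℤ) * G i j) fun _ => 0)
        (fun c => Gc c), ?_, ?_, ?_⟩
      · rintro (i | c) j
        · rcases j with j | c'
          · exact (Polynomial.natDegree_C_mul_le _ _).trans (h1 i j)
          · simp
        · exact (hGc1 c j).1
      · rintro (i | c) j l
        · rcases j with j | c'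
          · show |(((Polynomial.C ((Nat.lcmUpto k : ℕ) : ℤ) * G i j).coeff l : ℤ) : ℝ)| ≤ _
            have e1 : Bd (q * s) (((Nat.lcmUpto k : ℕ) : ℝ) * C ^ (k + 1)) (Polynomial.C ((Nat.lcmUpto k : ℕ) : ℤ) * G i j) := by
              refine Bd.C_mul ⟨h1 i j, h2 i j⟩ ?_
              push_cast
              rw [abs_of_nonneg (by positivity)]
            exact (e1.2 l).trans hL
          · show |(((0 : Polynomial ℤ).coeff l : ℤ) : ℝ)| ≤ _
            simp only [Polynomial.coeff_zero, Int.cast_zero, abs_zero]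
            positivity
        · exact (hGc1 c j).2 l
      · rintro (i | c)
        · show ((Nat.lcmUpto k * g : ℕ) : ℚ⟦X⟧) * (ps T ^ s * hd s (y i)) = ∑ j : ι ⊕ κ,
            ps (Sum.elim (fun j => Polynomial.C ((Nat.lcmUpto k : ℕ) : ℤ) * G i j) (fun _ => 0) j) * Sum.elim y f j
          rw [Fintype.sum_sum_type]
          simp only [Sum.elim_inl, Sum.elim_inr, ps_zero, zero_mul, Finset.sum_const_zero, add_zero]
          push_cast
          rw [mul_assoc, h3 i, Finset.mul_sum]
          refine Finset.sum_congr rfl fun j _ => ?_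
          rw [ps_mul, ps_C]
          push_cast
          ring
        · exact hGc2 c

/-- collapsing a family with repetitions -/
theorem collapse (N q : ℕ) : ∃ E : ℕ, ∀ (ι κ : Type) [Fintype ι] [Fintype κ] (C : ℝ) (T : Polynomial ℤ)
    (y : ι → ℚ⟦X⟧) (w : κ → ℚ⟦X⟧) (e : ι → κ), Fintype.card ι ≤ N → Fintype.card κ ≤ N → Function.Surjective e →
    (∀ i, y i = w (e i)) → GSys q C T y → GSys q ((2 * C) ^ E) T w := by
  classical
  obtain ⟨E, hE⟩ := t_fam N q
  refine ⟨E, ?_⟩
  intro ι κ _ _ C T y w e hι hκ he hyw hy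
  have hC := hy.one_le
  choose s hs using he
  refine hE ι κ C T y w (fun j i => if i = s j then 1 else 0) (fun i j => if j = e i then 1 else 0) hι hκ hy ?_ ?_ ?_ ?_
  · intro j i
    split_ifs
    · simpa using hC
    · simp only [Int.cast_zero, abs_zero]
      linarith
  · intro i j
    split_ifs
    · simpa using hC
    · simp only [Int.cast_zero, abs_zero]
      linarith
  · intro j
    rw [Finset.sum_eq_single (s j)]
    · rw [if_pos rfl, hyw, hs]
      simp
    · intro i _ hi
      rw [if_neg hi]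
      simp
    · intro h
      exact absurd (Finset.mem_univ _) h
  · intro i
    rw [Finset.sum_eq_single (e i)]
    · rw [if_pos rfl, hyw]
      simp
    · intro j _ hj
      rw [if_neg hj]
      simp
    · intro h
      exact absurd (Finset.mem_univ _) h

end Pool.Agent.Y120.GF
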