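import Mathlib

/-!
# Two lemmas on polynomials
-/

set_option autoImplicit false

open Polynomial

namespace Pool.Agent.Y120.GF

/-- a derivative of a rational function has no simple poles -/
theorem res_lemma {T P A Q : ℚ[X]} {a : ℚ} (hT : T.eval a = 0) (hT' : (derivative T).eval a ≠ 0) (hP : P ≠ 0)
    (h : T * (derivative P * A - P * derivative A) = P ^ 2 * Q) : Q.eval a = 0 := by
  by_contra hQ
  have hA : A ≠ 0 := by
    rintro rfl
    have h1 : P ^ 2 * Q = 0 := by rw [← h]; simp
    rcases mul_eq_zero.1 h1 with h2 | h2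
    · exact hP (pow_eq_zero_iff (two_ne_zero) |>.1 h2)
    · rw [h2] at hQ
      simp at hQ
  obtain ⟨p, hp, hpa⟩ := Polynomial.exists_eq_pow_rootMultiplicity_mul_and_not_dvd P hP a
  obtain ⟨α, hα, hαa⟩ := Polynomial.exists_eq_pow_rootMultiplicity_mul_and_not_dvd A hA a
  obtain ⟨τ, hτ⟩ := dvd_iff_isRoot.2 hT
  set m := rootMultiplicity a P with hm
  set n := rootMultiplicity a A with hn
  set Y : ℚ[X] := X - C a with hY
  have hYne : Y ≠ 0 := X_sub_C_ne_zero a
  have hYa : Y.eval a = 0 := by simp [hY]
  have hYd : derivative Y = 1 := by simp [hY]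
  have hpa' : p.eval a ≠ 0 := fun h0 => hpa (dvd_iff_isRoot.2 h0)
  have hαa' : α.eval a ≠ 0 := fun h0 => hαa (dvd_iff_isRoot.2 h0)
  have hτa : τ.eval a ≠ 0 := by
    intro h0
    apply hT'
    rw [hτ, derivative_mul, hYd]
    simp [hYa, h0]
  have hYP : Y * derivative P = Y ^ m * ((m : ℚ[X]) * p + Y * derivative p) := by
    conv_lhs => rw [hp]
    rw [derivative_mul, derivative_pow, hYd]
    rcases m with _ | m
    · simp
    · rw [Nat.add_sub_cancel, pow_succ]
      push_cast
      ring_nf
      simp
      ring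
  have hYA : Y * derivative A = Y ^ n * ((n : ℚ[X]) * α + Y * derivative α) := by
    conv_lhs => rw [hα]
    rw [derivative_mul, derivative_pow, hYd]
    rcases n with _ | n
    · simp
    · rw [Nat.add_sub_cancel, pow_succ]
      push_cast
      ring_nf
      simp
      ring
  set R : ℚ[X] := derivative p * α - p * derivative α with hR
  have key : Y ^ (m + n) * (τ * (((m : ℚ[X]) - n) * (p * α) + Y * R)) = Y ^ (2 * m) * (p ^ 2 * Q) := by
    have e1 : T * (derivative P * A - P * derivative A) =
        τ * ((Y * derivative P) * A - P * (Y * derivative A)) := by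
      rw [hτ]
      ring
    have e2 : P ^ 2 * Q = Y ^ (2 * m) * (p ^ 2 * Q) := by
      conv_lhs => rw [hp]
      ring
    rw [← e2, ← h, e1, hYP, hYA]
    have e3 : τ * (Y ^ m * ((m : ℚ[X]) * p + Y * derivative p) * A - P * (Y ^ n * ((n : ℚ[X]) * α + Y * derivative α))) =
        τ * (Y ^ m * ((m : ℚ[X]) * p + Y * derivative p) * (Y ^ n * α) -
          (Y ^ m * p) * (Y ^ n * ((n : ℚ[X]) * α + Y * derivative α))) := by
      rw [← hp, ← hα]
    rw [e3, hR, pow_add]
    ring
  rcases lt_trichotomy m n with hmn | hmn | hmn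
  · obtain ⟨d, hd⟩ := Nat.exists_eq_add_of_lt hmn
    have e1 : Y ^ (2 * m) * (Y ^ (d + 1) * (τ * (((m : ℚ[X]) - n) * (p * α) + Y * R))) = Y ^ (2 * m) * (p ^ 2 * Q) := by
      rw [← key, hd]
      ring
    have e2 := mul_left_cancel₀ (pow_ne_zero _ hYne) e1
    have e3 := congrArg (Polynomial.eval a) e2
    simp only [eval_mul, eval_pow, hYa] at e3
    rw [pow_succ] at e3
    simp [hpa', hQ] at e3
  · have e1 : Y ^ (2 * m) * (Y * (τ * R)) = Y ^ (2 * m) * (p ^ 2 * Q) := by
      rw [← key, hmn]
      ring
    have e2 := mul_left_cancel₀ (pow_ne_zero _ hYne) e1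
    have e3 := congrArg (Polynomial.eval a) e2
    simp only [eval_mul, eval_pow, hYa] at e3
    simp [hpa', hQ] at e3
  · obtain ⟨d, hd⟩ := Nat.exists_eq_add_of_lt hmn
    have e1 : Y ^ (m + n) * (τ * (((m : ℚ[X]) - n) * (p * α) + Y * R)) = Y ^ (m + n) * (Y ^ (d + 1) * (p ^ 2 * Q)) := by
      rw [key, hd]
      ring
    have e2 := mul_left_cancel₀ (pow_ne_zero _ hYne) e1
    have e3 := congrArg (Polynomial.eval a) e2
    simp only [eval_mul, eval_add, eval_sub, eval_natCast, eval_pow, hYa] at e3
    rw [pow_succ] at e3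
    have e4 : ((m : ℚ) - n) ≠ 0 := by
      rw [sub_ne_zero]
      exact_mod_cast (ne_of_gt hmn)
    simp [hpa', hαa', hτa, e4] at e3

/-- vanishing Wronskian -/
theorem wr_lemma {P R : ℚ[X]} (hP : P ≠ 0) (h : P * derivative R = derivative P * R) : ∃ c : ℚ, R = C c * P := by
  have key : ∀ R : ℚ[X], R ≠ 0 → P * derivative R = derivative P * R → R.natDegree = P.natDegree := by
    intro R hR h
    set p := P.natDegree with hp
    set r := R.natDegree with hr
    have h1 : P * (X * derivative R) = (X * derivative P) * R := by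
      calc P * (X * derivative R) = X * (P * derivative R) := by ring
        _ = (X * derivative P) * R := by rw [h]; ring
    have hc : ∀ S : ℚ[X], (X * derivative S).coeff S.natDegree = S.natDegree * S.leadingCoeff := by
      intro S
      rcases Nat.eq_zero_or_pos S.natDegree with h0 | h0
      · rw [h0]
        simp
      · obtain ⟨d, hd⟩ := Nat.exists_eq_succ_of_ne_zero h0.ne'
        rw [Polynomial.leadingCoeff, hd, coeff_X_mul, coeff_derivative]
        push_cast
        ring
    have hdg : ∀ S : ℚ[X], (X * derivative S).natDegree ≤ S.natDegree := by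
      intro S
      rcases Nat.eq_zero_or_pos S.natDegree with h0 | h0
      · rw [natDegree_eq_zero_iff_degree_le_zero] at h0
        have : derivative S = 0 := by
          rw [eq_C_of_degree_le_zero h0]
          simp
        rw [this]
        simp
      · refine natDegree_mul_le.trans ?_
        have := natDegree_derivative_lt h0.ne'
        have h2 := natDegree_X_le (R := ℚ)
        omega
    have h2 := congrArg (fun S : ℚ[X] => S.coeff (p + r)) h1
    beta_reduce at h2
    rw [coeff_mul_add_eq_of_natDegree_le le_rfl (hdg R), coeff_mul_add_eq_of_natDegree_le (hdg P) le_rfl, hc, hc] at h2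
    have h3 : (R.natDegree : ℚ) = P.natDegree := by
      have e1 : P.leadingCoeff ≠ 0 := leadingCoeff_ne_zero.2 hP
      have e2 : R.leadingCoeff ≠ 0 := leadingCoeff_ne_zero.2 hR
      have h4 : P.leadingCoeff * (R.natDegree * R.leadingCoeff) = P.natDegree * P.leadingCoeff * R.leadingCoeff := h2
      have h5 : P.leadingCoeff * R.leadingCoeff * ((R.natDegree : ℚ) - P.natDegree) = 0 := by
        linear_combination h4
      rcases mul_eq_zero.1 h5 with h6 | h6
      · exact absurd h6 (mul_ne_zero e1 e2)
      · linarith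
    exact_mod_cast h3
  by_cases hR : R = 0
  · exact ⟨0, by rw [hR]; simp⟩
  have hd := key R hR h
  set c := R.leadingCoeff / P.leadingCoeff with hc
  refine ⟨c, ?_⟩
  by_contra hne
  have hS : R - C c * P ≠ 0 := sub_ne_zero.2 hne
  have h1 : P * derivative (R - C c * P) = derivative P * (R - C c * P) := by
    rw [derivative_sub, derivative_mul, derivative_C]
    linear_combination h
  have h2 := key _ hS h1
  have e1 : P.leadingCoeff ≠ 0 := leadingCoeff_ne_zero.2 hP
  have h3 : (R - C c * P).coeff P.natDegree = 0 := by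
    rw [coeff_sub, coeff_C_mul, ← hd]
    have : P.coeff R.natDegree = P.leadingCoeff := by rw [hd]; rfl
    rw [this, hc]
    have e2 : R.coeff R.natDegree = R.leadingCoeff := rfl
    rw [e2]
    field_simp
    ring
  rw [← h2] at h3
  exact hS (leadingCoeff_eq_zero.1 h3)


end Pool.Agent.Y120.GF
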