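import Pool.Agent.Y120.G.Word
import Pool.Agent.Y120.G.Pol

/-!
# Linear independence of the products of words at several shifts
-/

set_option autoImplicit false

open PowerSeries Pool.Agent.Y113

namespace Pool.Agent.Y120.GF

/-- removing a letter: `0` for the logarithm, `1` for `dz/z`, `2` for `dz/(1-z)` -/
def low : Fin 3 → ℕ × List ℕ → Option (ℕ × List ℕ)
  | 0, (e + 1, s) => some (e, s)
  | 1, (e, (a + 1) :: s) => some (e, a :: s)
  | 2, (e, 0 :: s) => some (e, s)
  | _, _ => none

/-- adding a letter -/
def up : Fin 3 → ℕ × List ℕ → Option (ℕ × List ℕ)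
  | 0, (e, s) => some (e + 1, s)
  | 1, (e, a :: s) => some (e, (a + 1) :: s)
  | 2, (e, s) => some (e, 0 :: s)
  | _, _ => none

lemma low_up (i : Fin 3) (x y : ℕ × List ℕ) : low i x = some y ↔ up i y = some x := by
  obtain ⟨e, s⟩ := x
  obtain ⟨f, r⟩ := y
  fin_cases i
  · rcases e with _ | e <;> simp only [low, up] <;> constructor <;> intro h <;> simp_all
  · rcases s with _ | ⟨_ | a, s⟩ <;> rcases r with _ | ⟨b, r⟩ <;> simp only [low, up] <;> constructor <;> intro h <;>
      simp_all
  · rcases s with _ | ⟨_ | a, s⟩ <;> simp only [low, up] <;> constructor <;> intro h <;> simp_all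

/-- weight of a pair -/
def wp (x : ℕ × List ℕ) : ℕ := x.1 + wt x.2

lemma wp_up {i : Fin 3} {x y : ℕ × List ℕ} (h : up i x = some y) : wp y = wp x + 1 := by
  obtain ⟨e, s⟩ := x
  fin_cases i
  · simp only [up, Fin.zero_eta, Option.some.injEq] at h
    rw [← h]
    simp only [wp]
    omega
  · rcases s with _ | ⟨a, s⟩
    · simp [up] at h
    · simp only [up, Fin.mk_one, Option.some.injEq] at h
      rw [← h]
      simp only [wp, wt_cons]
      omega
  · simp only [up, Fin.reduceFinMk, Option.some.injEq] at h
    rw [← h]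
    simp only [wp, wt_cons]
    omega

/-- the multiplier of the letters -/
noncomputable def pl (g : ℕ) : Fin 3 → Polynomial ℚ :=
  ![-Polynomial.C (g : ℚ) * Polynomial.X * (1 - Polynomial.C ((g : ℚ) + 1) * Polynomial.X),
    1 - Polynomial.C ((g : ℚ) + 1) * Polynomial.X, Polynomial.X]

/-- the local denominator -/
noncomputable def pN (g : ℕ) : Polynomial ℚ :=
  (1 - Polynomial.C (g : ℚ) * Polynomial.X) * (1 - Polynomial.C ((g : ℚ) + 1) * Polynomial.X)

/-- one factor -/
noncomputable def Af (g : ℕ) (x : ℕ × List ℕ) : ℚ⟦X⟧ := yQ g x.1 * yL g x.2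

lemma coe_pl (g : ℕ) : ((pl g 0 : Polynomial ℚ) : ℚ⟦X⟧) = -(g : ℚ⟦X⟧) * X * (1 - ((g : ℚ⟦X⟧) + 1) * X) ∧
    ((pl g 1 : Polynomial ℚ) : ℚ⟦X⟧) = 1 - ((g : ℚ⟦X⟧) + 1) * X ∧ ((pl g 2 : Polynomial ℚ) : ℚ⟦X⟧) = X := by
  have h1 : ((Polynomial.C (g : ℚ) : Polynomial ℚ) : ℚ⟦X⟧) = (g : ℚ⟦X⟧) := by
    rw [Polynomial.coe_C]
    simp
  have h2 : ((Polynomial.C ((g : ℚ) + 1) : Polynomial ℚ) : ℚ⟦X⟧) = (g : ℚ⟦X⟧) + 1 := by
    rw [Polynomial.coe_C]
    simp
  refine ⟨?_, ?_, ?_⟩
  · show ((-Polynomial.C (g : ℚ) * Polynomial.X * (1 - Polynomial.C ((g : ℚ) + 1) * Polynomial.X) : Polynomial ℚ) : ℚ⟦X⟧) = _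
    rw [Polynomial.coe_mul, Polynomial.coe_mul, Polynomial.coe_neg, h1, Polynomial.coe_X, Polynomial.coe_sub,
      Polynomial.coe_one, Polynomial.coe_mul, h2, Polynomial.coe_X]
  · show ((1 - Polynomial.C ((g : ℚ) + 1) * Polynomial.X : Polynomial ℚ) : ℚ⟦X⟧) = _
    rw [Polynomial.coe_sub, Polynomial.coe_one, Polynomial.coe_mul, h2, Polynomial.coe_X]
  · show ((Polynomial.X : Polynomial ℚ) : ℚ⟦X⟧) = _
    rw [Polynomial.coe_X]

lemma coe_pN (g : ℕ) : ((pN g : Polynomial ℚ) : ℚ⟦X⟧) = (1 - (g : ℚ⟦X⟧) * X) * (1 - ((g : ℚ⟦X⟧) + 1) * X) := by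
  have h1 : ((Polynomial.C (g : ℚ) : Polynomial ℚ) : ℚ⟦X⟧) = (g : ℚ⟦X⟧) := by
    rw [Polynomial.coe_C]
    simp
  have h2 : ((Polynomial.C ((g : ℚ) + 1) : Polynomial ℚ) : ℚ⟦X⟧) = (g : ℚ⟦X⟧) + 1 := by
    rw [Polynomial.coe_C]
    simp
  rw [pN, Polynomial.coe_mul, Polynomial.coe_sub, Polynomial.coe_one, Polynomial.coe_mul, h1, Polynomial.coe_X,
    Polynomial.coe_sub, Polynomial.coe_one, Polynomial.coe_mul, h2, Polynomial.coe_X]

lemma der_Af (g : ℕ) (x : ℕ × List ℕ) : X * ((pN g : Polynomial ℚ) : ℚ⟦X⟧) * d⁄dX ℚ (Af g x) =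
    ∑ i, (low i x).elim 0 fun y => ((pl g i : Polynomial ℚ) : ℚ⟦X⟧) * Af g y := by
  obtain ⟨e, s⟩ := x
  obtain ⟨c0, c1, c2⟩ := coe_pl g
  have hQ : X * ((pN g : Polynomial ℚ) : ℚ⟦X⟧) * (d⁄dX ℚ (yQ g e) * yL g s) = (low 0 (e, s)).elim 0 fun y =>
      ((pl g 0 : Polynomial ℚ) : ℚ⟦X⟧) * Af g y := by
    rcases e with _ | e
    · rw [yQ_nil]
      simp [low]
    · simp only [low, Option.elim_some, Af]
      have := yQ_succ g e
      rw [c0, coe_pN]
      linear_combination X * (1 - ((g : ℚ⟦X⟧) + 1) * X) * yL g s * this
  have hL : X * ((pN g : Polynomial ℚ) : ℚ⟦X⟧) * (yQ g e * d⁄dX ℚ (yL g s)) =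
      ((low 1 (e, s)).elim 0 fun y => ((pl g 1 : Polynomial ℚ) : ℚ⟦X⟧) * Af g y) +
      ((low 2 (e, s)).elim 0 fun y => ((pl g 2 : Polynomial ℚ) : ℚ⟦X⟧) * Af g y) := by
    rcases s with _ | ⟨_ | a, s⟩
    · rw [yL_nil]
      simp [low]
    · have := yL_one g s
      simp only [low, Option.elim_some, Option.elim_none, zero_add, Af]
      rw [c2, coe_pN]
      linear_combination X * yQ g e * this
    · have := yL_succ g a s
      simp only [low, Option.elim_some, Option.elim_none, add_zero, Af]
      rw [c1, coe_pN]
      linear_combination (1 - ((g : ℚ⟦X⟧) + 1) * X) * yQ g e * this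
  rw [Fin.sum_univ_three, add_assoc, ← hQ, ← hL, Af, Derivation.leibniz]
  simp only [smul_eq_mul]
  ring

/-- the index set -/
abbrev J (k : ℕ) : Type := Fin k → ℕ × List ℕ

/-- total weight -/
def Wt {k : ℕ} (c : J k) : ℕ := ∑ l, wp (c l)

lemma Wt_update {k : ℕ} (c : J k) (l : Fin k) (x : ℕ × List ℕ) : Wt (Function.update c l x) + wp (c l) = Wt c + wp x := by
  classical
  unfold Wt
  rw [← Finset.add_sum_erase Finset.univ (fun l' => wp (Function.update c l x l')) (Finset.mem_univ l),
    ← Finset.add_sum_erase Finset.univ (fun l => wp (c l)) (Finset.mem_univ l)]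
  have : ∑ l' ∈ Finset.univ.erase l, wp (Function.update c l x l') = ∑ l' ∈ Finset.univ.erase l, wp (c l') := by
    refine Finset.sum_congr rfl fun l' hl' => ?_
    rw [Function.update_of_ne (Finset.ne_of_mem_erase hl')]
  rw [this]
  simp only [Function.update_self]
  ring

section
variable {k : ℕ} (g : Fin k → ℕ)

/-- the products -/
noncomputable def Ph (c : J k) : ℚ⟦X⟧ := ∏ l, Af (g l) (c l)

/-- the cofactor -/
noncomputable def cof (l : Fin k) : Polynomial ℚ := ∏ l' ∈ Finset.univ.erase l, pN (g l')

/-- the common denominator -/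
noncomputable def TJ : Polynomial ℚ := Polynomial.X * ∏ l, pN (g l)

lemma der_prod (s : Finset (Fin k)) (f : Fin k → ℚ⟦X⟧) :
    d⁄dX ℚ (∏ l ∈ s, f l) = ∑ l ∈ s, (∏ l' ∈ s.erase l, f l') * d⁄dX ℚ (f l) := by
  classical
  induction s using Finset.induction_on with
  | empty => simp
  | insert a s ha ih =>
    rw [Finset.prod_insert ha, Derivation.leibniz, Finset.sum_insert ha, Finset.erase_insert ha, ih]
    simp only [smul_eq_mul]
    rw [Finset.mul_sum, add_comm]
    congr 1
    refine Finset.sum_congr rfl fun l hl => ?_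
    have hne : a ≠ l := fun h => ha (h ▸ hl)
    rw [Finset.erase_insert_of_ne hne, Finset.prod_insert (fun h => ha (Finset.mem_of_mem_erase h))]
    ring

lemma der_Ph (c : J k) : ((TJ g : Polynomial ℚ) : ℚ⟦X⟧) * d⁄dX ℚ (Ph g c) =
    ∑ l, ∑ i, ((low i (c l)).map (Function.update c l)).elim 0 fun b =>
      ((cof g l * pl (g l) i : Polynomial ℚ) : ℚ⟦X⟧) * Ph g b := by
  classical
  rw [Ph, der_prod, Finset.mul_sum]
  refine Finset.sum_congr rfl fun l _ => ?_
  have h1 : ((TJ g : Polynomial ℚ) : ℚ⟦X⟧) = ((cof g l : Polynomial ℚ) : ℚ⟦X⟧) * (X * ((pN (g l) : Polynomial ℚ) : ℚ⟦X⟧)) := by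
    rw [TJ, cof, ← Finset.mul_prod_erase _ _ (Finset.mem_univ l)]
    simp only [Polynomial.coe_mul, Polynomial.coe_X]
    ring
  have h2 := der_Af (g l) (c l)
  calc ((TJ g : Polynomial ℚ) : ℚ⟦X⟧) * ((∏ l' ∈ Finset.univ.erase l, Af (g l') (c l')) * d⁄dX ℚ (Af (g l) (c l))) =
      ((cof g l : Polynomial ℚ) : ℚ⟦X⟧) * (∏ l' ∈ Finset.univ.erase l, Af (g l') (c l')) *
        (X * ((pN (g l) : Polynomial ℚ) : ℚ⟦X⟧) * d⁄dX ℚ (Af (g l) (c l))) := by rw [h1]; ring
    _ = _ := by
      rw [h2, Finset.mul_sum]
      refine Finset.sum_congr rfl fun i _ => ?_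
      rcases low i (c l) with _ | y
      · simp
      · simp only [Option.elim_some, Option.map_some]
        have h3 : Ph g (Function.update c l y) = Af (g l) y * ∏ l' ∈ Finset.univ.erase l, Af (g l') (c l') := by
          rw [Ph, ← Finset.mul_prod_erase _ _ (Finset.mem_univ l), Function.update_self]
          congr 1
          refine Finset.prod_congr rfl fun l' hl' => ?_
          rw [Function.update_of_ne (Finset.ne_of_mem_erase hl')]
        rw [h3, Polynomial.coe_mul]
        ring

lemma updn (i : Fin 3) (c b : J k) (l : Fin k) : (low i (c l)).map (Function.update c l) = some b ↔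
    (up i (b l)).map (Function.update b l) = some c := by
  classical
  constructor
  · intro h
    obtain ⟨y, hy, rfl⟩ := Option.map_eq_some_iff.1 h
    rw [Function.update_self, (low_up i _ _).1 hy]
    simp
  · intro h
    obtain ⟨y, hy, rfl⟩ := Option.map_eq_some_iff.1 h
    rw [Function.update_self, (low_up i _ _).2 hy]
    simp

/-- the derived relation of a single term -/
noncomputable def D1 (c : J k) (P : Polynomial ℚ) : J k →₀ Polynomial ℚ :=
  Finsupp.single c (TJ g * Polynomial.derivative P) +
    ∑ l, ∑ i, ((low i (c l)).map (Function.update c l)).elim 0 fun b => Finsupp.single b (cof g l * pl (g l) i * P)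

/-- the derived relation -/
noncomputable def DD : (J k →₀ Polynomial ℚ) →+ (J k →₀ Polynomial ℚ) :=
  Finsupp.liftAddHom fun c =>
    { toFun := D1 g c
      map_zero' := by
        unfold D1
        rw [Polynomial.derivative_zero, mul_zero, Finsupp.single_zero, zero_add]
        refine Finset.sum_eq_zero fun l _ => Finset.sum_eq_zero fun i _ => ?_
        rcases (low i (c l)).map (Function.update c l) with _ | y <;> simp
      map_add' := fun P Q => by
        have h : ∀ l i, (((low i (c l)).map (Function.update c l)).elim (0 : J k →₀ Polynomial ℚ) fun b =>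
            Finsupp.single b (cof g l * pl (g l) i * (P + Q))) =
            (((low i (c l)).map (Function.update c l)).elim 0 fun b => Finsupp.single b (cof g l * pl (g l) i * P)) +
            (((low i (c l)).map (Function.update c l)).elim 0 fun b => Finsupp.single b (cof g l * pl (g l) i * Q)) := by
          intro l i
          rcases (low i (c l)).map (Function.update c l) with _ | y
          · simp
          · simp only [Option.elim_some, mul_add, Finsupp.single_add]
        unfold D1
        rw [Finset.sum_congr rfl fun l _ => Finset.sum_congr rfl fun i _ => h l i]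
        simp only [Finset.sum_add_distrib, Polynomial.derivative_add]
        rw [mul_add, Finsupp.single_add]
        exact add_add_add_comm _ _ _ _ }

lemma DD_single (c : J k) (P : Polynomial ℚ) : DD g (Finsupp.single c P) = D1 g c P := by
  rw [DD, Finsupp.liftAddHom_apply_single]
  rfl

/-- evaluation -/
noncomputable def evJ : (J k →₀ Polynomial ℚ) →ₗ[Polynomial ℚ] ℚ⟦X⟧ := Finsupp.linearCombination (Polynomial ℚ) (Ph g)

lemma psmul (P : Polynomial ℚ) (f : ℚ⟦X⟧) : P • f = (P : ℚ⟦X⟧) * f := by
  rw [Algebra.smul_def, PowerSeries.algebraMap_apply']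
  simp

lemma evJ_DD (R : J k →₀ Polynomial ℚ) : evJ g (DD g R) = ((TJ g : Polynomial ℚ) : ℚ⟦X⟧) * d⁄dX ℚ (evJ g R) := by
  induction R using Finsupp.induction_linear with
  | zero => simp
  | add R S hR hS => rw [map_add, map_add, hR, hS, map_add, map_add]; ring
  | single c P =>
    rw [DD_single, D1, map_add, map_sum]
    simp only [map_sum]
    have h1 : ∀ l i, evJ g (((low i (c l)).map (Function.update c l)).elim (0 : J k →₀ Polynomial ℚ) fun b =>
        Finsupp.single b (cof g l * pl (g l) i * P)) = (P : ℚ⟦X⟧) * (((low i (c l)).map (Function.update c l)).elim 0 fun b =>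
          ((cof g l * pl (g l) i : Polynomial ℚ) : ℚ⟦X⟧) * Ph g b) := by
      intro l i
      rcases (low i (c l)).map (Function.update c l) with _ | y
      · simp
      · simp only [Option.elim_some, evJ, Finsupp.linearCombination_single, psmul, Polynomial.coe_mul]
        ring
    simp only [h1]
    have h2 := der_Ph g c
    rw [evJ, Finsupp.linearCombination_single, Finsupp.linearCombination_single, psmul, psmul, Derivation.leibniz,
      derivative_coe]
    simp only [← Finset.mul_sum]
    rw [← h2, Polynomial.coe_mul]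
    simp only [smul_eq_mul]
    ring

lemma DD_apply (R : J k →₀ Polynomial ℚ) (b : J k) : DD g R b = TJ g * Polynomial.derivative (R b) +
    ∑ l, ∑ i, (cof g l * pl (g l) i) * (((up i (b l)).map (Function.update b l)).elim 0 fun c => R c) := by
  classical
  induction R using Finsupp.induction_linear with
  | zero =>
    rw [map_zero, Finsupp.zero_apply, Polynomial.derivative_zero, mul_zero, zero_add]
    symm
    refine Finset.sum_eq_zero fun l _ => Finset.sum_eq_zero fun i _ => ?_
    rcases (up i (b l)).map (Function.update b l) with _ | y <;> simp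
  | add R S hR hS =>
    rw [map_add, Finsupp.add_apply, hR, hS, Finsupp.add_apply, Polynomial.derivative_add]
    have h : ∀ l i, (((up i (b l)).map (Function.update b l)).elim (0 : Polynomial ℚ) fun c => (R + S) c) =
        (((up i (b l)).map (Function.update b l)).elim 0 fun c => R c) +
        (((up i (b l)).map (Function.update b l)).elim 0 fun c => S c) := by
      intro l i
      rcases (up i (b l)).map (Function.update b l) with _ | y <;> simp
    simp only [h, mul_add, Finset.sum_add_distrib]
    ring
  | single c P =>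
    rw [DD_single, D1, Finsupp.add_apply, Finsupp.finsetSum_apply]
    simp only [Finsupp.finsetSum_apply]
    congr 1
    · rw [Finsupp.single_apply, Finsupp.single_apply]
      split_ifs <;> simp
    · refine Finset.sum_congr rfl fun l _ => Finset.sum_congr rfl fun i _ => ?_
      have h1 := updn i c b l
      by_cases h : (low i (c l)).map (Function.update c l) = some b
      · rw [h, h1.1 h]
        simp
      · have h2 : ¬ (up i (b l)).map (Function.update b l) = some c := fun h' => h (h1.2 h')
        have e1 : (((low i (c l)).map (Function.update c l)).elim (0 : J k →₀ Polynomial ℚ) fun b =>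
            Finsupp.single b (cof g l * pl (g l) i * P)) b = 0 := by
          rcases h3 : (low i (c l)).map (Function.update c l) with _ | y
          · simp
          · rw [h3] at h
            simp only [Option.elim_some]
            rw [Finsupp.single_apply, if_neg]
            intro h4
            exact h (by rw [h4])
        have e2 : (((up i (b l)).map (Function.update b l)).elim (0 : Polynomial ℚ) fun c' =>
            (Finsupp.single c P : J k →₀ Polynomial ℚ) c') = 0 := by
          rcases h3 : (up i (b l)).map (Function.update b l) with _ | y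
          · simp
          · rw [h3] at h2
            simp only [Option.elim_some]
            rw [Finsupp.single_apply, if_neg]
            intro h4
            exact h2 (by rw [h4])
        rw [e1, e2, mul_zero]

/-! ## roots of the denominators -/

/-- the shifts are at least one and separated -/
def Sep (g : Fin k → ℕ) : Prop := (∀ l, 1 ≤ g l) ∧ ∀ l l', l ≠ l' → g l ≠ g l' ∧ g l + 1 ≠ g l'

lemma pN_eval (g : ℕ) (a : ℚ) : (pN g).eval a = (1 - g * a) * (1 - (g + 1) * a) := by
  simp [pN]

lemma cof_eval_ne {g : Fin k → ℕ} (hg : Sep g) (l : Fin k) {c : ℕ} (hc : c = g l ∨ c = g l + 1) :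
    (cof g l).eval (1 / (c : ℚ)) ≠ 0 := by
  have hc0 : (c : ℚ) ≠ 0 := by
    have := hg.1 l
    have h1 : c ≠ 0 := by omega
    exact_mod_cast h1
  rw [cof, Polynomial.eval_prod, Finset.prod_ne_zero_iff]
  intro l' hl'
  have hne := Finset.ne_of_mem_erase hl'
  have h1 := hg.2 l' l hne
  have h2 := hg.2 l l' hne.symm
  rw [pN_eval]
  refine mul_ne_zero ?_ ?_
  · intro h0
    have h3 : ((g l' : ℕ) : ℚ) = c := by
      field_simp at h0
      linarith
    have h4 : g l' = c := by exact_mod_cast h3
    omega
  · intro h0
    have h3 : ((g l' : ℕ) : ℚ) + 1 = c := by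
      field_simp at h0
      linarith
    have h4 : g l' + 1 = c := by exact_mod_cast h3
    omega

lemma cof_eval_zero {g : Fin k → ℕ} {l l' : Fin k} (h : l' ≠ l) {a : ℚ} (ha : (pN (g l)).eval a = 0) :
    (cof g l').eval a = 0 := by
  rw [cof, Polynomial.eval_prod]
  exact Finset.prod_eq_zero (Finset.mem_erase.2 ⟨h.symm, Finset.mem_univ l⟩) ha

lemma TJ_eq (g : Fin k → ℕ) (l : Fin k) : TJ g = pN (g l) * (Polynomial.X * cof g l) := by
  rw [TJ, cof, ← Finset.mul_prod_erase _ _ (Finset.mem_univ l)]
  ring

lemma TJ_facts {g : Fin k → ℕ} (hg : Sep g) (l : Fin k) {c : ℕ} (hc : c = g l ∨ c = g l + 1) :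
    (TJ g).eval (1 / (c : ℚ)) = 0 ∧ (Polynomial.derivative (TJ g)).eval (1 / (c : ℚ)) ≠ 0 ∧
    (pN (g l)).eval (1 / (c : ℚ)) = 0 := by
  have hl := hg.1 l
  have hc0' : c ≠ 0 := by omega
  have hc0 : (c : ℚ) ≠ 0 := by exact_mod_cast hc0'
  have h1 : (pN (g l)).eval (1 / (c : ℚ)) = 0 := by
    rw [pN_eval]
    rcases hc with h | h
    · rw [h]
      have : ((g l : ℕ) : ℚ) ≠ 0 := by rw [← h]; exact hc0
      field_simp
      ring
    · rw [h]
      push_cast
      have : ((g l : ℕ) : ℚ) + 1 ≠ 0 := by positivity
      field_simp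
      ring
  refine ⟨?_, ?_, h1⟩
  · rw [TJ_eq g l, Polynomial.eval_mul, h1, zero_mul]
  · rw [TJ_eq g l, Polynomial.derivative_mul]
    simp only [Polynomial.eval_add, Polynomial.eval_mul, h1, zero_mul, add_zero, Polynomial.eval_X]
    refine mul_ne_zero ?_ (mul_ne_zero (one_div_ne_zero hc0) (cof_eval_ne hg l hc))
    have h2 : (Polynomial.derivative (pN (g l))).eval (1 / (c : ℚ)) =
        -(g l : ℚ) * (1 - ((g l : ℚ) + 1) * (1 / c)) - ((g l : ℚ) + 1) * (1 - (g l : ℚ) * (1 / c)) := by
      rw [pN, Polynomial.derivative_mul]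
      simp
      ring
    rw [h2]
    have hg0 : ((g l : ℕ) : ℚ) ≠ 0 := by
      have : g l ≠ 0 := by omega
      exact_mod_cast this
    rcases hc with h | h
    · rw [h]
      have e1 : -(g l : ℚ) * (1 - ((g l : ℚ) + 1) * (1 / (g l : ℚ))) - ((g l : ℚ) + 1) * (1 - (g l : ℚ) * (1 / (g l : ℚ))) = 1 := by
        field_simp
        ring
      rw [e1]
      exact one_ne_zero
    · rw [h]
      push_cast
      have : ((g l : ℕ) : ℚ) + 1 ≠ 0 := by positivity
      have e1 : -(g l : ℚ) * (1 - ((g l : ℚ) + 1) * (1 / ((g l : ℚ) + 1))) -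
          ((g l : ℚ) + 1) * (1 - (g l : ℚ) * (1 / ((g l : ℚ) + 1))) = -1 := by
        field_simp
        ring
      rw [e1]
      norm_num

/-- the combinatorial part -/
theorem comb (w : ℕ) (lam : J k → ℚ)
    (h2 : ∀ b : J k, Wt b = w → ∀ l, lam (Function.update b l ((b l).1, 0 :: (b l).2)) = 0)
    (h1 : ∀ b : J k, Wt b = w → ∀ l, lam (Function.update b l ((b l).1 + 1, (b l).2)) =
      ((up 1 (b l)).map (Function.update b l)).elim 0 lam) : ∀ c : J k, Wt c = w + 1 → lam c = 0 := by
  classical
  have hA : ∀ (a : ℕ) (c : J k) (l : Fin k) (e : ℕ) (s : List ℕ), Wt c = w + 1 → c l = (e, a :: s) → lam c = 0 := by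
    intro a
    induction a with
    | zero =>
      intro c l e s hc hcl
      have e1 := Wt_update c l (e, s)
      rw [hcl, hc] at e1
      simp only [wp, wt_cons] at e1
      have e2 := h2 (Function.update c l (e, s)) (by omega) l
      simp only [Function.update_self, Function.update_idem] at e2
      rw [← hcl, Function.update_eq_self] at e2
      exact e2
    | succ a ih =>
      intro c l e s hc hcl
      have e1 := Wt_update c l (e, a :: s)
      rw [hcl, hc] at e1
      simp only [wp, wt_cons] at e1
      have e2 := h1 (Function.update c l (e, a :: s)) (by omega) l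
      simp only [Function.update_self, Function.update_idem, up, Option.map_some, Option.elim_some] at e2
      rw [← hcl, Function.update_eq_self] at e2
      rw [← e2]
      refine ih (Function.update c l (e + 1, a :: s)) l (e + 1) s ?_ (by simp)
      have e3 := Wt_update c l (e + 1, a :: s)
      rw [hcl, hc] at e3
      simp only [wp, wt_cons] at e3
      omega
  intro c hc
  have hex : ∃ l, wp (c l) ≠ 0 := by
    by_contra hno
    push Not at hno
    have : Wt c = 0 := Finset.sum_eq_zero fun l _ => hno l
    omega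
  obtain ⟨l, hl⟩ := hex
  rcases hcl : c l with ⟨e, _ | ⟨a, s⟩⟩
  · rcases e with _ | e
    · rw [hcl] at hl
      exact absurd (by simp [wp, wt_nil]) hl
    · have e1 := Wt_update c l (e, [])
      rw [hcl, hc] at e1
      simp only [wp, wt_nil] at e1
      have e2 := h1 (Function.update c l (e, [])) (by omega) l
      simp only [Function.update_self, Function.update_idem, up, Option.map_none, Option.elim_none] at e2
      rw [← hcl, Function.update_eq_self] at e2
      exact e2
  · exact hA a c l e s hc hcl

/-- linear independence of the products -/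
theorem evJ_inj {g : Fin k → ℕ} (hg : Sep g) : ∀ (w n : ℕ) (R : J k →₀ Polynomial ℚ), (∀ b, R b ≠ 0 → Wt b ≤ w) →
    (R.support.filter fun b => Wt b = w).card ≤ n → evJ g R = 0 → R = 0 := by
  classical
  intro w
  induction w with
  | zero =>
    intro n R hw _ hev
    have h0 : ∀ b : J k, Wt b ≤ 0 → b = fun _ => (0, []) := by
      intro b hb
      funext l
      have h1 : wp (b l) ≤ Wt b := Finset.single_le_sum (f := fun l => wp (b l)) (fun _ _ => Nat.zero_le _) (Finset.mem_univ l)
      have h2 : wp (b l) = 0 := by omega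
      rcases hbl : b l with ⟨e, _ | ⟨a, s⟩⟩
      · rw [hbl] at h2
        simp only [wp, wt_nil] at h2
        have : e = 0 := by omega
        rw [this]
      · rw [hbl] at h2
        simp only [wp, wt_cons] at h2
        omega
    have h1 : R = Finsupp.single (fun _ => (0, [])) (R fun _ => (0, [])) := by
      ext b : 1
      by_cases hb : b = fun _ => (0, [])
      · rw [hb, Finsupp.single_eq_same]
      · rw [Finsupp.single_apply, if_neg (fun h => hb h.symm)]
        by_contra hne
        exact hb (h0 b (hw b hne))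
    rw [h1] at hev ⊢
    rw [evJ, Finsupp.linearCombination_single, psmul] at hev
    have h2 : Ph g (fun _ => (0, [])) = 1 := by
      rw [Ph]
      refine Finset.prod_eq_one fun l _ => ?_
      rw [Af, yQ_nil, yL_nil, mul_one]
    rw [h2, mul_one] at hev
    have h3 : R (fun _ => (0, [])) = 0 := by
      have := hev
      rw [← Polynomial.coe_zero] at this
      exact Polynomial.coe_injective ℚ this
    rw [h3, Finsupp.single_zero]
  | succ w ihw =>
    intro n
    induction n with
    | zero =>
      intro R hw hcard hev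
      refine ihw (R.support.filter fun b => Wt b = w).card R ?_ le_rfl hev
      intro b hb
      have h1 := hw b hb
      by_contra hlt
      have h2 : b ∈ R.support.filter fun b => Wt b = w + 1 :=
        Finset.mem_filter.2 ⟨Finsupp.mem_support_iff.2 hb, by omega⟩
      have h3 := Finset.card_pos.2 ⟨b, h2⟩
      omega
    | succ n ihn =>
      intro R hw hcard hev
      by_contra hR0
      -- a top monomial
      have hex : ∃ b₀, R b₀ ≠ 0 ∧ Wt b₀ = w + 1 := by
        by_contra hno
        push Not at hno
        apply hR0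
        refine ihw (R.support.filter fun b => Wt b = w).card R ?_ le_rfl hev
        intro b hb
        have h1 := hw b hb
        have h2 := hno b hb
        omega
      obtain ⟨b₀, hb₀, hWb₀⟩ := hex
      set P := R b₀ with hP
      -- the derived relation
      have hup : ∀ (R : J k →₀ Polynomial ℚ) (b : J k) (v : ℕ), (∀ b, R b ≠ 0 → Wt b ≤ v) → v ≤ Wt b → ∀ l i,
          (((up i (b l)).map (Function.update b l)).elim 0 fun c => R c) = 0 := by
        intro R b v hv hb l i
        rcases h3 : up i (b l) with _ | y
        · simp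
        · simp only [Option.map_some, Option.elim_some]
          by_contra hne
          have h4 := hv _ hne
          have h5 := Wt_update b l y
          have h6 := wp_up h3
          omega
      have htop : ∀ b, w + 1 ≤ Wt b → DD g R b = TJ g * Polynomial.derivative (R b) := by
        intro b hb
        rw [DD_apply]
        have : ∑ l, ∑ i, (cof g l * pl (g l) i) * (((up i (b l)).map (Function.update b l)).elim 0 fun c => R c) = 0 :=
          Finset.sum_eq_zero fun l _ => Finset.sum_eq_zero fun i _ => by rw [hup R b (w + 1) hw hb l i, mul_zero]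
        rw [this, add_zero]
      set R₂ : J k →₀ Polynomial ℚ := P • DD g R - (DD g R b₀) • R with hR₂
      have hR₂b : ∀ b, R₂ b = P * DD g R b - DD g R b₀ * R b := fun b => by
        rw [hR₂, Finsupp.sub_apply, Finsupp.smul_apply, Finsupp.smul_apply, smul_eq_mul, smul_eq_mul]
      have h2ev : evJ g R₂ = 0 := by
        rw [hR₂, map_sub, map_smul, map_smul, evJ_DD, hev]
        simp
      have h2w : ∀ b, R₂ b ≠ 0 → Wt b ≤ w + 1 := by
        intro b hb
        by_contra hlt
        apply hb
        have h1 : R b = 0 := by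
          by_contra hne
          exact hlt (hw b hne)
        rw [hR₂b, htop b (by omega), h1]
        simp
      have h2sub : (R₂.support.filter fun b => Wt b = w + 1) ⊆ (R.support.filter fun b => Wt b = w + 1).erase b₀ := by
        intro b hb
        rw [Finset.mem_filter, Finsupp.mem_support_iff] at hb
        have h1 : R₂ b = P * (TJ g * Polynomial.derivative (R b)) - (TJ g * Polynomial.derivative P) * R b := by
          rw [hR₂b, htop b (by omega), htop b₀ (by omega)]
        rw [Finset.mem_erase, Finset.mem_filter, Finsupp.mem_support_iff]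
        refine ⟨?_, ?_, hb.2⟩
        · rintro rfl
          apply hb.1
          rw [h1]
          ring
        · intro h0
          apply hb.1
          rw [h1, h0]
          simp
      have hR₂0 : R₂ = 0 := by
        refine ihn R₂ h2w ?_ h2ev
        have h1 : b₀ ∈ R.support.filter fun b => Wt b = w + 1 :=
          Finset.mem_filter.2 ⟨Finsupp.mem_support_iff.2 hb₀, hWb₀⟩
        have h2 := Finset.card_le_card h2sub
        rw [Finset.card_erase_of_mem h1] at h2
        omega
      have hTJ0 : TJ g ≠ 0 := by
        intro h0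
        have : (TJ g).coeff 1 = 0 := by rw [h0]; simp
        rw [TJ, Polynomial.coeff_X_mul, Polynomial.coeff_zero_eq_eval_zero, Polynomial.eval_prod] at this
        rw [Finset.prod_eq_zero_iff] at this
        obtain ⟨l, _, hl⟩ := this
        rw [pN_eval] at hl
        simp at hl
      have hrel : ∀ b, P * DD g R b = TJ g * Polynomial.derivative P * R b := by
        intro b
        have h1 := hR₂b b
        rw [hR₂0, Finsupp.zero_apply, htop b₀ (by omega)] at h1
        linear_combination -h1
      -- the constants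
      have hlam : ∀ b : J k, ∃ c : ℚ, Wt b = w + 1 → R b = Polynomial.C c * P := by
        intro b
        by_cases hb : Wt b = w + 1
        · have h1 := hrel b
          rw [htop b (by omega)] at h1
          have h2 : P * Polynomial.derivative (R b) = Polynomial.derivative P * R b := by
            apply mul_left_cancel₀ hTJ0
            linear_combination h1
          obtain ⟨c, hc⟩ := wr_lemma hb₀ h2
          exact ⟨c, fun _ => hc⟩
        · exact ⟨0, fun h => absurd h hb⟩
      choose lam hlam using hlam
      -- the relations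
      set lu : J k → Fin k → Fin 3 → ℚ := fun b l i => ((up i (b l)).map (Function.update b l)).elim 0 lam with hlu
      have hupl : ∀ b : J k, Wt b = w → ∀ l i, (((up i (b l)).map (Function.update b l)).elim 0 fun c => R c) =
          Polynomial.C (lu b l i) * P := by
        intro b hb l i
        rw [hlu]
        rcases h3 : up i (b l) with _ | y
        · simp [h3]
        · simp only [h3, Option.map_some, Option.elim_some]
          refine hlam _ ?_
          have h5 := Wt_update b l y
          have h6 := wp_up h3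
          omega
      have hQ : ∀ b : J k, Wt b = w → ∀ (l : Fin k) (c : ℕ), (c = g l ∨ c = g l + 1) →
          ∑ i, (pl (g l) i).eval (1 / (c : ℚ)) * lu b l i = 0 := by
        intro b hb l c hc
        obtain ⟨t1, t2, t3⟩ := TJ_facts hg l hc
        set Q : Polynomial ℚ := ∑ l, ∑ i, (cof g l * pl (g l) i) * Polynomial.C (lu b l i) with hQd
        have h1 := hrel b
        rw [DD_apply] at h1
        have h2 : ∑ l, ∑ i, (cof g l * pl (g l) i) * (((up i (b l)).map (Function.update b l)).elim 0 fun c => R c) =
            Q * P := by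
          rw [hQd, Finset.sum_mul]
          refine Finset.sum_congr rfl fun l _ => ?_
          rw [Finset.sum_mul]
          refine Finset.sum_congr rfl fun i _ => ?_
          rw [hupl b hb l i]
          ring
        rw [h2] at h1
        have h3 : TJ g * (Polynomial.derivative P * R b - P * Polynomial.derivative (R b)) = P ^ 2 * Q := by
          linear_combination -h1
        have h4 := res_lemma t1 t2 hb₀ h3
        rw [hQd, Polynomial.eval_finsetSum, Finset.sum_eq_single l] at h4
        · rw [Polynomial.eval_finsetSum] at h4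
          simp only [Polynomial.eval_mul, Polynomial.eval_C] at h4
          have h5 := cof_eval_ne hg l hc
          have h6 : (cof g l).eval (1 / (c : ℚ)) * ∑ i, (pl (g l) i).eval (1 / (c : ℚ)) * lu b l i = 0 := by
            rw [Finset.mul_sum, ← h4]
            refine Finset.sum_congr rfl fun i _ => by ring
          exact (mul_eq_zero.1 h6).resolve_left h5
        · intro l' _ hne
          rw [Polynomial.eval_finsetSum]
          refine Finset.sum_eq_zero fun i _ => ?_
          rw [Polynomial.eval_mul, Polynomial.eval_mul, cof_eval_zero hne t3]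
          simp
        · intro h
          exact absurd (Finset.mem_univ l) h
      have hpl : ∀ (g : ℕ) (a : ℚ), (pl g 0).eval a = -g * a * (1 - (g + 1) * a) ∧ (pl g 1).eval a = 1 - (g + 1) * a ∧
          (pl g 2).eval a = a := by
        intro g a
        refine ⟨?_, ?_, ?_⟩
        · show Polynomial.eval a (-Polynomial.C (g : ℚ) * Polynomial.X * (1 - Polynomial.C ((g : ℚ) + 1) * Polynomial.X)) = _
          simp
        · show Polynomial.eval a (1 - Polynomial.C ((g : ℚ) + 1) * Polynomial.X) = _
          simp
        · show Polynomial.eval a Polynomial.X = _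
          simp
      have hH2 : ∀ b : J k, Wt b = w → ∀ l, lu b l 2 = 0 := by
        intro b hb l
        have h1 := hQ b hb l (g l + 1) (Or.inr rfl)
        obtain ⟨p0, p1, p2⟩ := hpl (g l) (1 / ((g l + 1 : ℕ) : ℚ))
        rw [Fin.sum_univ_three, p0, p1, p2] at h1
        have e0 : ((g l + 1 : ℕ) : ℚ) ≠ 0 := by positivity
        have e1 : (1 : ℚ) - ((g l : ℚ) + 1) * (1 / ((g l + 1 : ℕ) : ℚ)) = 0 := by
          push_cast
          have : ((g l : ℕ) : ℚ) + 1 ≠ 0 := by positivity
          field_simp
          ring
        rw [e1] at h1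
        have e2 : (1 / ((g l + 1 : ℕ) : ℚ)) ≠ 0 := one_div_ne_zero e0
        have e3 : (1 / ((g l + 1 : ℕ) : ℚ)) * lu b l 2 = 0 := by linear_combination h1
        exact (mul_eq_zero.1 e3).resolve_left e2
      have hH1 : ∀ b : J k, Wt b = w → ∀ l, lu b l 0 = lu b l 1 := by
        intro b hb l
        have h1 := hQ b hb l (g l) (Or.inl rfl)
        obtain ⟨p0, p1, p2⟩ := hpl (g l) (1 / ((g l : ℕ) : ℚ))
        rw [Fin.sum_univ_three, p0, p1, p2, hH2 b hb l] at h1
        have e0 : ((g l : ℕ) : ℚ) ≠ 0 := by
          have := hg.1 l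
          have h2 : g l ≠ 0 := by omega
          exact_mod_cast h2
        have e1 : -(g l : ℚ) * (1 / ((g l : ℕ) : ℚ)) * (1 - ((g l : ℚ) + 1) * (1 / ((g l : ℕ) : ℚ))) = 1 / ((g l : ℕ) : ℚ) := by
          field_simp
          ring
        have e2 : (1 : ℚ) - ((g l : ℚ) + 1) * (1 / ((g l : ℕ) : ℚ)) = -(1 / ((g l : ℕ) : ℚ)) := by
          field_simp
          ring
        rw [e1, e2] at h1
        have e3 : (1 / ((g l : ℕ) : ℚ)) ≠ 0 := one_div_ne_zero e0
        have e4 : (1 / ((g l : ℕ) : ℚ)) * (lu b l 0 - lu b l 1) = 0 := by linear_combination h1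
        have := (mul_eq_zero.1 e4).resolve_left e3
        linarith
      have hfin := comb w lam (fun b hb l => by
          have h1 := hH2 b hb l
          rw [hlu] at h1
          rcases hbl : b l with ⟨e, s⟩
          simpa [hbl, up] using h1) (fun b hb l => by
          have h1 := hH1 b hb l
          rw [hlu] at h1
          rcases hbl : b l with ⟨e, s⟩
          simp only [hbl] at h1 ⊢
          exact h1) b₀ hWb₀
      have h1 := hlam b₀ hWb₀
      rw [hfin] at h1
      simp only [Polynomial.C_0, zero_mul] at h1
      exact hb₀ h1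

theorem li_Ph {g : Fin k → ℕ} (hg : Sep g) : LinearIndependent (Polynomial ℚ) (Ph g) := by
  classical
  rw [linearIndependent_iff]
  intro R hR
  exact evJ_inj hg (R.support.sup Wt) _ R (fun b hb => Finset.le_sup (f := Wt) (Finsupp.mem_support_iff.2 hb)) le_rfl hR

/-- linear independence of the products over several shifts of the functions `FF` -/
theorem li_FF {g : Fin k → ℕ} (hg : Sep g) (n : ℕ) :
    LinearIndependent (Polynomial ℚ) (fun b : Fin k → Ix n => ∏ l, FF n (g l) (b l)) := by
  have h1 := (li_Ph hg).comp (fun (b : Fin k → Ix n) (l : Fin k) => (((b l).1 : ℕ), (b l).2.1)) (by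
    intro b b' h
    funext l
    have h2 := congrFun h l
    simp only [Prod.mk.injEq] at h2
    exact Prod.ext (Fin.ext h2.1) (Subtype.ext h2.2))
  exact h1

end

end Pool.Agent.Y120.GF
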